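import Pool.Agent.U958.HC.Three
import Pool.Agent.Results.MP_eba1ef_gt.AllConvexBodies

set_option autoImplicit false

/-! helper958: the final covering theorem in Euclidean space. -/

open MeasureTheory Set
open scoped ENNReal Pointwise Matrix Topology

namespace Pool.Agent.U958.HC

open H801NS

variable {d : ℕ}

lemma vr_pos_of_int {K : Set (EuclideanSpace ℝ (Fin d))} (hKc : IsCompact K)
    (hKi : (interior K).Nonempty) : 0 < volume.real K := by
  rw [measureReal_def]
  refine ENNReal.toReal_pos ?_ hKc.measure_lt_top.ne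
  exact (lt_of_lt_of_le (isOpen_interior.measure_pos volume hKi)
    (measure_mono interior_subset)).ne'

/-- a one-dimensional body is symmetric -/
lemma exists_center_one {K : Set (EuclideanSpace ℝ (Fin 1))} (hK : Convex ℝ K)
    (hKc : IsCompact K) (hKi : (interior K).Nonempty) :
    ∃ c : EuclideanSpace ℝ (Fin 1), K ∩ {x | (2 : ℝ) • c - x ∈ K} = K := by
  have hne : K.Nonempty := hKi.mono interior_subset
  have hcont : ContinuousOn (fun x : EuclideanSpace ℝ (Fin 1) => x 0) K := by fun_prop
  obtain ⟨p, hp, hpmin⟩ := hKc.exists_isMinOn hne hcont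
  obtain ⟨q, hq, hqmax⟩ := hKc.exists_isMaxOn hne hcont
  refine ⟨(1 / 2 : ℝ) • (p + q), ?_⟩
  refine inter_eq_left.2 fun x hx => ?_
  have h1 : p 0 ≤ x 0 := hpmin hx
  have h2 : x 0 ≤ q 0 := hqmax hx
  have e : (2 : ℝ) • ((1 / 2 : ℝ) • (p + q)) - x = p + q - x := by
    rw [smul_smul]
    norm_num
  show (2 : ℝ) • ((1 / 2 : ℝ) • (p + q)) - x ∈ K
  rw [e]
  rcases (h1.trans h2).eq_or_lt with heq | hlt
  · have : p + q - x = p := by
      ext i
      have hi : i = 0 := Subsingleton.elim _ _
      subst hi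
      simp only [PiLp.sub_apply, PiLp.add_apply]
      linarith
    rw [this]
    exact hp
  · have hpq : 0 < q 0 - p 0 := by linarith
    have h3 := hK hp hq (a := (x 0 - p 0) / (q 0 - p 0)) (b := (q 0 - x 0) / (q 0 - p 0))
      (div_nonneg (by linarith) hpq.le) (div_nonneg (by linarith) hpq.le)
      (by rw [← add_div, div_eq_one_iff_eq hpq.ne']; ring)
    convert h3 using 1
    ext i
    have hi : i = 0 := Subsingleton.elim _ _
    subst hi
    simp only [PiLp.sub_apply, PiLp.add_apply, PiLp.smul_apply, smul_eq_mul]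
    field_simp
    ring

theorem cover_loglog (hd : 1 ≤ d) {K : Set (EuclideanSpace ℝ (Fin d))} (hK : Convex ℝ K)
    (hKc : IsCompact K) (hKi : (interior K).Nonempty) {c : EuclideanSpace ℝ (Fin d)}
    (hc : 0 < volume.real (K ∩ {x | (2 : ℝ) • c - x ∈ K})) :
    ∃ T : Finset (EuclideanSpace ℝ (Fin d)), K ⊆ ⋃ t ∈ T, (fun x => t + x) '' interior K ∧
      (T.card : ℝ) ≤ d * 2 ^ d * (11 + 3 * Real.log (1 +
        Real.log (volume.real K / volume.real (K ∩ {x | (2 : ℝ) • c - x ∈ K})))) := by
  have hL0 : 0 ≤ Real.log (volume.real K / volume.real (K ∩ {x | (2 : ℝ) • c - x ∈ K})) := by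
    apply Real.log_nonneg
    rw [one_le_div hc]
    exact measureReal_mono inter_subset_left hKc.measure_lt_top.ne
  by_cases hcase : 3 / 2 * (1 +
      Real.log (volume.real K / volume.real (K ∩ {x | (2 : ℝ) • c - x ∈ K}))) ≤ d
  · obtain ⟨hnb, e1, e2⟩ := KK_nb hK hKc hc
    obtain ⟨T, hT, hcard⟩ := cover_two hnb hd (by rw [e1, e2]; exact hcase)
    obtain ⟨T', hT', hcard'⟩ := cover_back T hT
    refine ⟨T', hT', ?_⟩
    rw [e1, e2] at hcard
    exact le_trans (by exact_mod_cast hcard') hcard
  · obtain ⟨L, hL⟩ : ∃ L, L = Real.log (volume.real K /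
      volume.real (K ∩ {x | (2 : ℝ) • c - x ∈ K})) := ⟨_, rfl⟩
    rw [← hL] at hL0 hcase ⊢
    push Not at hcase
    have hlogL : 0 ≤ Real.log (1 + L) := Real.log_nonneg (by linarith)
    have hcases : d = 1 ∨ d = 2 ∨ 3 ≤ d := by omega
    rcases hcases with rfl | rfl | hd3
    · obtain ⟨c', hc'⟩ := exists_center_one hK hKc hKi
      have hvp := vr_pos_of_int hKc hKi
      obtain ⟨T, hT, hcard⟩ := cover_ratio (c := c') le_rfl hK hKc (by rw [hc']; exact hvp)
      refine ⟨T, hT, hcard.trans ?_⟩
      rw [hc', div_self hvp.ne']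
      norm_num
      nlinarith
    · obtain ⟨T, hT, hcard⟩ := Pool.Agent.Results.MP_eba1ef_gt.AllConvexBodies.result 2 le_rfl K hK
        hKc hKi
      refine ⟨T, hT, hcard.trans ?_⟩
      have h1 : Real.log 13 ≤ 11 / 3 := by
        rw [Real.log_le_iff_le_exp (by norm_num)]
        have h2 : (2.7182818283 : ℝ) < Real.exp 1 := Real.exp_one_gt_d9
        have h3 : Real.exp 1 ^ 3 ≤ Real.exp (11 / 3) := by
          rw [← Real.exp_nat_mul]
          apply Real.exp_le_exp.2
          norm_num
        have h4 : (13 : ℝ) ≤ Real.exp 1 ^ 3 := by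
          calc (13 : ℝ) ≤ 2.7182818283 ^ 3 := by norm_num
            _ ≤ _ := by gcongr
        linarith
      have e : (2 * ((2 : ℕ) : ℝ) ^ 2 + 2 * ((2 : ℕ) : ℝ) + 1) = 13 := by norm_num
      rw [e]
      push_cast
      nlinarith
    · obtain ⟨T, hT, hcard⟩ := Pool.Agent.N605.RB.rogers K hK hKc hKi d hd3 (by simp)
      refine ⟨T, hT, hcard.trans ?_⟩
      have hd0 : (3 : ℝ) ≤ d := by exact_mod_cast hd3
      have hlogd : 0 < Real.log d := Real.log_pos (by linarith)
      have h1 : Real.log (Real.log d) ≤ Real.log d - 1 := Real.log_le_sub_one_of_pos hlogd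
      have h2 : Real.log d ≤ 1 / 2 + Real.log (1 + L) := by
        calc Real.log d ≤ Real.log (3 / 2 * (1 + L)) := Real.log_le_log (by linarith) hcase.le
          _ = Real.log (3 / 2) + Real.log (1 + L) := Real.log_mul (by norm_num) (by positivity)
          _ ≤ 1 / 2 + Real.log (1 + L) := by
            have := Real.log_le_sub_one_of_pos (show (0:ℝ) < 3 / 2 by norm_num)
            linarith
      have h3 : (2:ℝ) ^ d * (d * Real.log d + d * Real.log (Real.log d) + 7 / 2 * d) =
          d * 2 ^ d * (Real.log d + Real.log (Real.log d) + 7 / 2) := by ring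
      rw [h3]
      refine mul_le_mul_of_nonneg_left ?_ (by positivity)
      linarith

end Pool.Agent.U958.HC
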