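import Pool.Agent.U958.HC.Dec

set_option autoImplicit false

/-! helper958: expectation and covariance for the density `exp (⟨y,φ⟩ - h_K(φ))`, the derivative of
the mean is the covariance matrix, the mean is injective. -/

open MeasureTheory Set
open scoped ENNReal Pointwise Matrix Topology

namespace Pool.Agent.U958.HC

open H801NS

variable {m : ℕ} {K : Set (Fin m → ℝ)} {y : Fin m → ℝ}

lemma II_add (hK : NB K) (hy : y ∈ interior K) {f g : (Fin m → ℝ) → ℝ} (hf : PG f) (hg : PG g) :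
    II K (fun φ => f φ + g φ) y = II K f y + II K g y := by
  unfold II
  rw [← integral_add (integrable_ww hK hy hf) (integrable_ww hK hy hg)]
  refine integral_congr_ae (Filter.Eventually.of_forall fun φ => ?_)
  simp only
  ring

lemma II_const_mul (c : ℝ) (f : (Fin m → ℝ) → ℝ) :
    II K (fun φ => c * f φ) y = c * II K f y := by
  unfold II
  rw [← integral_const_mul]
  refine integral_congr_ae (Filter.Eventually.of_forall fun φ => ?_)
  simp only
  ring

lemma PG.sum {ι : Type} (s : Finset ι) {f : ι → (Fin m → ℝ) → ℝ} (hf : ∀ i, PG (f i)) :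
    PG fun φ => ∑ i ∈ s, f i φ := by
  classical
  induction s using Finset.induction_on with
  | empty => simpa using PG.const (m := m) 0
  | insert i s hi ih =>
    have := (hf i).add ih
    convert this using 1
    funext φ
    rw [Finset.sum_insert hi]

lemma II_sum (hK : NB K) (hy : y ∈ interior K) {ι : Type} (s : Finset ι)
    {f : ι → (Fin m → ℝ) → ℝ} (hf : ∀ i, PG (f i)) :
    II K (fun φ => ∑ i ∈ s, f i φ) y = ∑ i ∈ s, II K (f i) y := by
  classical
  induction s using Finset.induction_on with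
  | empty => simp [II]
  | insert i s hi ih =>
    rw [Finset.sum_insert hi, ← ih, ← II_add hK hy (hf i) (PG.sum s hf)]
    congr 1
    funext φ
    rw [Finset.sum_insert hi]

lemma II_mono (hK : NB K) (hy : y ∈ interior K) {f g : (Fin m → ℝ) → ℝ} (hf : PG f) (hg : PG g)
    (h : ∀ φ, f φ ≤ g φ) : II K f y ≤ II K g y := by
  refine integral_mono (integrable_ww hK hy hf) (integrable_ww hK hy hg) fun φ => ?_
  exact mul_le_mul_of_nonneg_right (h φ) (ww_pos K y φ).le

/-- partition function -/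
noncomputable def ZZ (K : Set (Fin m → ℝ)) (y : Fin m → ℝ) : ℝ := II K (fun _ => 1) y

lemma ZZ_eq (hK : NB K) (hy : y ∈ interior K) : ENNReal.ofReal (ZZ K y) = FF K y := by
  unfold ZZ II FF
  rw [ofReal_integral_eq_lintegral_ofReal (integrable_ww hK hy (PG.const 1))
    (Filter.Eventually.of_forall fun φ => by
      have := ww_pos K y φ
      simp only [Pi.zero_apply]
      linarith)]
  refine lintegral_congr fun φ => ?_
  rw [one_mul]
  unfold ee ww
  congr 2
  ring

lemma ZZ_pos (hK : NB K) (hy : y ∈ interior K) : 0 < ZZ K y := by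
  have := FF_pos hK hy
  rw [← ZZ_eq hK hy] at this
  exact ENNReal.ofReal_pos.1 this

/-- expectation -/
noncomputable def EE (K : Set (Fin m → ℝ)) (g : (Fin m → ℝ) → ℝ) (y : Fin m → ℝ) : ℝ :=
  II K g y / ZZ K y

lemma EE_add (hK : NB K) (hy : y ∈ interior K) {f g : (Fin m → ℝ) → ℝ} (hf : PG f) (hg : PG g) :
    EE K (fun φ => f φ + g φ) y = EE K f y + EE K g y := by
  unfold EE
  rw [II_add hK hy hf hg, add_div]

lemma EE_const_mul (c : ℝ) (f : (Fin m → ℝ) → ℝ) :
    EE K (fun φ => c * f φ) y = c * EE K f y := by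
  unfold EE
  rw [II_const_mul, mul_div_assoc]

lemma EE_const (hK : NB K) (hy : y ∈ interior K) (c : ℝ) : EE K (fun _ => c) y = c := by
  have h := EE_const_mul (K := K) (y := y) c (fun _ => 1)
  simp only [mul_one] at h
  rw [h]
  unfold EE
  rw [show II K (fun _ => 1) y = ZZ K y from rfl, div_self (ZZ_pos hK hy).ne', mul_one]

lemma EE_sum (hK : NB K) (hy : y ∈ interior K) {ι : Type} (s : Finset ι)
    {f : ι → (Fin m → ℝ) → ℝ} (hf : ∀ i, PG (f i)) :
    EE K (fun φ => ∑ i ∈ s, f i φ) y = ∑ i ∈ s, EE K (f i) y := by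
  unfold EE
  rw [II_sum hK hy s hf, Finset.sum_div]

lemma EE_mono (hK : NB K) (hy : y ∈ interior K) {f g : (Fin m → ℝ) → ℝ} (hf : PG f) (hg : PG g)
    (h : ∀ φ, f φ ≤ g φ) : EE K f y ≤ EE K g y := by
  unfold EE
  have := ZZ_pos hK hy
  have h2 := II_mono hK hy hf hg h
  gcongr

lemma II_pos (hK : NB K) (hy : y ∈ interior K) {f : (Fin m → ℝ) → ℝ} (hf : PG f)
    (h : ∀ φ, 0 ≤ f φ) (hne : ∃ φ, f φ ≠ 0) : 0 < II K f y := by
  unfold II
  rw [integral_pos_iff_support_of_nonneg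
    (fun φ => mul_nonneg (h φ) (ww_pos K y φ).le) (integrable_ww hK hy hf)]
  have hc : Continuous fun φ => f φ * ww K y φ := hf.cont.mul (cont_ww hK y)
  obtain ⟨φ, hφ⟩ := hne
  exact hc.isOpen_support.measure_pos volume ⟨φ, mul_ne_zero hφ (ww_pos K y φ).ne'⟩

/-- the mean -/
noncomputable def GG (K : Set (Fin m → ℝ)) (y : Fin m → ℝ) : Fin m → ℝ :=
  fun i => EE K (fun φ => φ i) y

/-- the covariance matrix -/
noncomputable def CC (K : Set (Fin m → ℝ)) (y : Fin m → ℝ) : Matrix (Fin m) (Fin m) ℝ :=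
  fun i j => EE K (fun φ => φ i * φ j) y - GG K y i * GG K y j

lemma EE_dot (hK : NB K) (hy : y ∈ interior K) (v : Fin m → ℝ) :
    EE K (fun φ => v ⬝ᵥ φ) y = v ⬝ᵥ GG K y := by
  have h := EE_sum hK hy Finset.univ (f := fun i (φ : Fin m → ℝ) => v i * φ i)
    (fun i => (PG.const (v i)).mul (PG.coord i))
  unfold dotProduct
  rw [h]
  refine Finset.sum_congr rfl fun i _ => ?_
  rw [EE_const_mul]
  rfl

lemma EE_mul_dot (hK : NB K) (hy : y ∈ interior K) (i : Fin m) (v : Fin m → ℝ) :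
    EE K (fun φ => φ i * (v ⬝ᵥ φ)) y = ∑ j, v j * EE K (fun φ => φ i * φ j) y := by
  have h := EE_sum hK hy Finset.univ (f := fun j (φ : Fin m → ℝ) => v j * (φ i * φ j))
    (fun j => (PG.const (v j)).mul ((PG.coord i).mul (PG.coord j)))
  simp_rw [EE_const_mul] at h
  rw [← h]
  congr 1
  funext φ
  unfold dotProduct
  rw [Finset.mul_sum]
  refine Finset.sum_congr rfl fun j _ => ?_
  ring

lemma CC_mulVec (hK : NB K) (hy : y ∈ interior K) (i : Fin m) (v : Fin m → ℝ) :
    (CC K y *ᵥ v) i = EE K (fun φ => φ i * (v ⬝ᵥ φ)) y - GG K y i * (v ⬝ᵥ GG K y) := by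
  rw [EE_mul_dot hK hy]
  unfold Matrix.mulVec dotProduct CC
  rw [Finset.mul_sum, ← Finset.sum_sub_distrib]
  refine Finset.sum_congr rfl fun j _ => ?_
  ring

/-- derivative of the mean -/
theorem hasFDerivAt_GG (hK : NB K) (hy : y ∈ interior K) :
    HasFDerivAt (GG K) (LinearMap.toContinuousLinearMap (Matrix.toLin' (CC K y))) y := by
  have hZ := ZZ_pos hK hy
  have key : ∀ i, HasFDerivAt (fun z => GG K z i)
      ((ContinuousLinearMap.proj i).comp
        (LinearMap.toContinuousLinearMap (Matrix.toLin' (CC K y)))) y := by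
    intro i
    have h1 := hasFDerivAt_II hK hy (PG.coord i)
    have h0 := hasFDerivAt_II hK hy (PG.const (m := m) 1)
    have h0' : HasFDerivAt (fun z => (ZZ K z)⁻¹)
        (-((ZZ K y) ^ 2)⁻¹ • (∫ φ, ((1 : ℝ) * ww K y φ) • dotL φ)) y :=
      (hasDerivAt_inv hZ.ne').comp_hasFDerivAt y h0
    have h2 := h1.mul h0'
    have e : (fun z => GG K z i) = (II K fun φ => φ i) * fun z => (ZZ K z)⁻¹ := by
      funext z
      simp only [GG, EE, Pi.mul_apply, div_eq_mul_inv]
    rw [e]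
    refine h2.congr_fderiv ?_
    ext v
    have e1 := II_fderiv_apply hK hy (PG.coord i) v
    have e0 := II_fderiv_apply hK hy (PG.const (m := m) 1) v
    simp only [add_apply, smul_apply, smul_eq_mul, ContinuousLinearMap.comp_apply,
      ContinuousLinearMap.proj_apply, LinearMap.coe_toContinuousLinearMap', Matrix.toLin'_apply]
    rw [e1, e0, CC_mulVec hK hy]
    have e2 := EE_dot hK hy v
    rw [← e2]
    simp only [GG, EE, one_mul]
    field_simp
    ring
  have := hasFDerivAt_pi.2 key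
  refine this.congr_fderiv ?_
  ext v i
  rfl

lemma quad_CC (hK : NB K) (hy : y ∈ interior K) (v : Fin m → ℝ) :
    v ⬝ᵥ (CC K y *ᵥ v) = EE K (fun φ => (v ⬝ᵥ φ - v ⬝ᵥ GG K y) ^ 2) y := by
  set c := v ⬝ᵥ GG K y with hc
  have h1 : v ⬝ᵥ (CC K y *ᵥ v) = EE K (fun φ => (v ⬝ᵥ φ) * (v ⬝ᵥ φ)) y - c * c := by
    have h2 : EE K (fun φ => (v ⬝ᵥ φ) * (v ⬝ᵥ φ)) y =
        ∑ i, v i * EE K (fun φ => φ i * (v ⬝ᵥ φ)) y := by
      have h := EE_sum hK hy Finset.univ (f := fun i (φ : Fin m → ℝ) => v i * (φ i * (v ⬝ᵥ φ)))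
        (fun i => (PG.const (v i)).mul ((PG.coord i).mul (PG.dot v)))
      simp_rw [EE_const_mul] at h
      rw [← h]
      congr 1
      funext φ
      conv_lhs => rw [show (v ⬝ᵥ φ) = ∑ i, v i * φ i from rfl]
      rw [Finset.sum_mul]
      refine Finset.sum_congr rfl fun i _ => ?_
      rw [show (v ⬝ᵥ φ) = ∑ i, v i * φ i from rfl]
      ring
    rw [h2]
    have h3 : v ⬝ᵥ (CC K y *ᵥ v) = ∑ i, v i * (CC K y *ᵥ v) i := rfl
    rw [h3]
    have h4 : c * c = ∑ i, v i * (GG K y i * c) := by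
      conv_lhs => rw [hc]
      rw [show (v ⬝ᵥ GG K y) = ∑ i, v i * GG K y i from rfl, Finset.sum_mul]
      refine Finset.sum_congr rfl fun i _ => ?_
      rw [hc]
      rw [show (v ⬝ᵥ GG K y) = ∑ i, v i * GG K y i from rfl]
      ring
    rw [h4, ← Finset.sum_sub_distrib]
    refine Finset.sum_congr rfl fun i _ => ?_
    rw [CC_mulVec hK hy, ← hc]
    ring
  rw [h1]
  have e : (fun φ : Fin m → ℝ => (v ⬝ᵥ φ - c) ^ 2) =
      fun φ => (v ⬝ᵥ φ) * (v ⬝ᵥ φ) + ((-2 * c) * (v ⬝ᵥ φ) + c ^ 2) := by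
    funext φ
    ring
  rw [e, EE_add hK hy ((PG.dot v).mul (PG.dot v))
    (((PG.const (-2 * c)).mul (PG.dot v)).add (PG.const (c ^ 2))),
    EE_add hK hy ((PG.const (-2 * c)).mul (PG.dot v)) (PG.const (c ^ 2)),
    EE_const_mul, EE_dot hK hy, EE_const hK hy, ← hc]
  ring

lemma exists_dot_ne {v : Fin m → ℝ} (hv : v ≠ 0) (c : ℝ) : ∃ φ : Fin m → ℝ, v ⬝ᵥ φ ≠ c := by
  by_contra h
  push Not at h
  have h1 := h 0
  have h2 := h v
  rw [dotProduct_zero] at h1
  rw [← h1] at h2
  exact hv (dotProduct_self_eq_zero.1 h2)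

lemma PG.sq_sub (v : Fin m → ℝ) (c : ℝ) : PG fun φ : Fin m → ℝ => (v ⬝ᵥ φ - c) ^ 2 := by
  have h := ((PG.dot v).add (PG.const (-c))).mul ((PG.dot v).add (PG.const (-c)))
  convert h using 1
  funext φ
  ring

lemma posDef_CC (hK : NB K) (hy : y ∈ interior K) : (CC K y).PosDef := by
  refine Matrix.PosDef.of_dotProduct_mulVec_pos ?_ ?_
  · ext i j
    simp only [Matrix.conjTranspose_apply, star_trivial, CC]
    have : (fun φ : Fin m → ℝ => φ j * φ i) = fun φ => φ i * φ j := by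
      funext φ
      ring
    rw [this]
    ring
  · intro v hv
    rw [star_trivial, quad_CC hK hy]
    unfold EE
    refine div_pos (II_pos hK hy (PG.sq_sub v _) (fun φ => sq_nonneg _) ?_) (ZZ_pos hK hy)
    obtain ⟨φ, hφ⟩ := exists_dot_ne hv (v ⬝ᵥ GG K y)
    exact ⟨φ, pow_ne_zero 2 (sub_ne_zero.2 hφ)⟩

/-- the mean is injective -/
theorem injOn_GG (hK : NB K) : InjOn (GG K) (interior K) := by
  intro y hy y' hy' heq
  by_contra hne
  set v := y - y' with hv
  have hv0 : v ≠ 0 := sub_ne_zero.2 hne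
  set c := v ⬝ᵥ GG K y' with hc
  set F : (Fin m → ℝ) → ℝ := fun φ => (v ⬝ᵥ φ - c) * (ww K y φ - Real.exp c * ww K y' φ) with hF
  have hww : ∀ φ, ww K y φ = Real.exp (v ⬝ᵥ φ) * ww K y' φ := by
    intro φ
    unfold ww
    rw [← Real.exp_add, hv, sub_dotProduct]
    congr 1
    ring
  have hnn : ∀ φ, 0 ≤ F φ := by
    intro φ
    simp only [hF]
    rw [hww, ← sub_mul, ← mul_assoc]
    refine mul_nonneg ?_ (ww_pos K y' φ).le
    rcases le_total (v ⬝ᵥ φ) c with h | h
    · exact mul_nonneg_of_nonpos_of_nonpos (by linarith)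
        (sub_nonpos.2 (Real.exp_le_exp.2 h))
    · exact mul_nonneg (by linarith) (sub_nonneg.2 (Real.exp_le_exp.2 h))
  have hint1 := integrable_ww hK hy ((PG.dot v).add (PG.const (-c)))
  have hint2 := (integrable_ww hK hy' ((PG.dot v).add (PG.const (-c)))).const_mul (Real.exp c)
  have hFe : F = fun φ => (v ⬝ᵥ φ + -c) * ww K y φ -
      Real.exp c * ((v ⬝ᵥ φ + -c) * ww K y' φ) := by
    funext φ
    simp only [hF]
    ring
  have hFint : Integrable F := by
    rw [hFe]
    exact hint1.sub hint2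
  have hval : ∫ φ, F φ = 0 := by
    rw [hFe, integral_sub hint1 hint2, integral_const_mul]
    have h1 : ∫ φ, (v ⬝ᵥ φ + -c) * ww K y φ = ZZ K y * (v ⬝ᵥ GG K y - c) := by
      have h := EE_add hK hy (PG.dot v) (PG.const (-c))
      rw [EE_dot hK hy, EE_const hK hy] at h
      unfold EE at h
      rw [div_eq_iff (ZZ_pos hK hy).ne'] at h
      rw [show (∫ φ, (v ⬝ᵥ φ + -c) * ww K y φ) = II K (fun φ => v ⬝ᵥ φ + -c) y from rfl, h]
      ring
    have h2 : ∫ φ, (v ⬝ᵥ φ + -c) * ww K y' φ = ZZ K y' * (v ⬝ᵥ GG K y' - c) := by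
      have h := EE_add hK hy' (PG.dot v) (PG.const (-c))
      rw [EE_dot hK hy', EE_const hK hy'] at h
      unfold EE at h
      rw [div_eq_iff (ZZ_pos hK hy').ne'] at h
      rw [show (∫ φ, (v ⬝ᵥ φ + -c) * ww K y' φ) = II K (fun φ => v ⬝ᵥ φ + -c) y' from rfl, h]
      ring
    rw [h1, h2, heq, hc]
    ring
  have hpos : 0 < ∫ φ, F φ := by
    rw [integral_pos_iff_support_of_nonneg hnn hFint]
    have hcont : Continuous F := by
      have := cont_ww hK y
      have := cont_ww hK y'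
      have := (PG.dot v).cont
      simp only [hF]
      fun_prop
    obtain ⟨φ, hφ⟩ := exists_dot_ne hv0 c
    refine hcont.isOpen_support.measure_pos volume ⟨φ, ?_⟩
    rw [Function.mem_support]
    simp only [hF]
    refine mul_ne_zero (sub_ne_zero.2 hφ) ?_
    rw [hww, ← sub_mul]
    refine mul_ne_zero (sub_ne_zero.2 ?_) (ww_pos K y' φ).ne'
    exact fun h => hφ (Real.exp_injective h)
  linarith

end Pool.Agent.U958.HC
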