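import Pool.Agent.U958.HC.Sup

set_option autoImplicit false

/-! helper958: decay of `exp (⟨y,φ⟩ - h_K(φ))`, integrability and differentiation of
`∫ g(φ) exp (⟨y,φ⟩ - h_K(φ)) dφ`. -/

open MeasureTheory Set
open scoped ENNReal Pointwise Matrix Topology

namespace Pool.Agent.U958.HC

open H801NS

variable {m : ℕ} {K : Set (Fin m → ℝ)}

lemma norm_le_sum_abs (φ : Fin m → ℝ) : ‖φ‖ ≤ ∑ i, |φ i| := by
  rw [pi_norm_le_iff_of_nonneg (Finset.sum_nonneg fun i _ => abs_nonneg _)]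
  intro i
  rw [Real.norm_eq_abs]
  exact Finset.single_le_sum (f := fun i => |φ i|) (fun i _ => abs_nonneg _) (Finset.mem_univ i)

lemma decay (hK : NB K) {y : Fin m → ℝ} (hy : y ∈ interior K) :
    ∃ c : ℝ, 0 < c ∧ ∀ y', ‖y' - y‖ < c →
      (y' ∈ interior K ∧ ∀ φ, c * ‖φ‖ ≤ hh K φ - y' ⬝ᵥ φ) := by
  obtain ⟨ρ, hρ, h⟩ := Metric.mem_nhds_iff.1 (mem_interior_iff_mem_nhds.1 hy)
  refine ⟨ρ / 2, by linarith, fun y' hy' => ⟨?_, fun φ => ?_⟩⟩
  · rw [mem_interior]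
    refine ⟨Metric.ball y ρ, h, Metric.isOpen_ball, ?_⟩
    rw [mem_ball_iff_norm]
    linarith
  · set s : Fin m → ℝ := fun i => if 0 ≤ φ i then ρ / 2 else - (ρ / 2) with hs
    have h1 : y' + s ∈ K := by
      apply h
      rw [mem_ball_iff_norm]
      have h2 : ‖s‖ ≤ ρ / 2 := by
        rw [pi_norm_le_iff_of_nonneg (by linarith)]
        intro i
        simp only [hs]
        split_ifs
        · rw [Real.norm_eq_abs, abs_of_pos (by linarith)]
        · rw [Real.norm_eq_abs, abs_neg, abs_of_pos (by linarith)]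
      calc ‖y' + s - y‖ = ‖(y' - y) + s‖ := by congr 1; abel
        _ ≤ ‖y' - y‖ + ‖s‖ := norm_add_le _ _
        _ < ρ := by linarith
    have h2 := dot_le_hh hK h1 φ
    rw [add_dotProduct] at h2
    have h3 : s ⬝ᵥ φ = ρ / 2 * ∑ i, |φ i| := by
      unfold dotProduct
      rw [Finset.mul_sum]
      refine Finset.sum_congr rfl fun i _ => ?_
      simp only [hs]
      split_ifs with h0
      · rw [abs_of_nonneg h0]
      · rw [abs_of_neg (by linarith)]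
        ring
    have h4 := norm_le_sum_abs φ
    have h5 : ρ / 2 * ‖φ‖ ≤ ρ / 2 * ∑ i, |φ i| := by gcongr
    linarith

lemma integrable_exp_norm {c : ℝ} (hc : 0 < c) :
    Integrable fun φ : Fin m → ℝ => Real.exp (-(c * ‖φ‖)) := by
  have hB : NB (Metric.closedBall (0 : Fin m → ℝ) c⁻¹) := by
    refine ⟨isCompact_closedBall _ _, convex_closedBall _ _, ?_⟩
    rw [mem_interior]
    exact ⟨Metric.ball 0 c⁻¹, Metric.ball_subset_closedBall, Metric.isOpen_ball,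
      Metric.mem_ball_self (inv_pos.2 hc)⟩
  have h1 := t_GAU m _ hB
  have h2 : ∀ φ : Fin m → ℝ, gauge (Metric.closedBall (0 : Fin m → ℝ) c⁻¹) φ = c * ‖φ‖ := by
    intro φ
    rw [gauge_closedBall (inv_pos.2 hc).le, div_inv_eq_mul, mul_comm]
  refine ⟨by fun_prop, ?_⟩
  rw [hasFiniteIntegral_iff_ofReal (Filter.Eventually.of_forall fun φ => (Real.exp_pos _).le)]
  have h3 : ∫⁻ φ : Fin m → ℝ, ENNReal.ofReal (Real.exp (-(c * ‖φ‖))) =
      m.factorial * volume (Metric.closedBall (0 : Fin m → ℝ) c⁻¹) := by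
    rw [← h1]
    refine lintegral_congr fun φ => ?_
    rw [h2]
    rfl
  rw [h3]
  exact ENNReal.mul_lt_top (by simp) (NB.vol_lt_top hB)

lemma integrable_pow_exp_norm {c : ℝ} (hc : 0 < c) (k : ℕ) :
    Integrable fun φ : Fin m → ℝ => ‖φ‖ ^ k * Real.exp (-(c * ‖φ‖)) := by
  have h1 := (integrable_exp_norm (m := m) (half_pos hc)).const_mul (k.factorial * (2 / c) ^ k)
  refine h1.mono' (by fun_prop) (Filter.Eventually.of_forall fun φ => ?_)
  rw [Real.norm_eq_abs, abs_of_nonneg (by positivity)]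
  have h2 := Real.pow_div_factorial_le_exp (c / 2 * ‖φ‖) (by positivity) k
  rw [div_le_iff₀ (by positivity)] at h2
  have h3 : ‖φ‖ ^ k ≤ k.factorial * (2 / c) ^ k * Real.exp (c / 2 * ‖φ‖) := by
    have e : ‖φ‖ ^ k = (2 / c) ^ k * (c / 2 * ‖φ‖) ^ k := by
      rw [← mul_pow]
      congr 1
      field_simp
    rw [e]
    calc (2 / c) ^ k * (c / 2 * ‖φ‖) ^ k
        ≤ (2 / c) ^ k * (Real.exp (c / 2 * ‖φ‖) * k.factorial) := by gcongr
      _ = _ := by ring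
  calc ‖φ‖ ^ k * Real.exp (-(c * ‖φ‖))
      ≤ k.factorial * (2 / c) ^ k * Real.exp (c / 2 * ‖φ‖) * Real.exp (-(c * ‖φ‖)) := by gcongr
    _ = k.factorial * (2 / c) ^ k * Real.exp (-(c / 2 * ‖φ‖)) := by
      rw [mul_assoc, ← Real.exp_add]
      congr 2
      ring

/-- the pairing as a continuous bilinear map -/
noncomputable def dotL : (Fin m → ℝ) →L[ℝ] ((Fin m → ℝ) →L[ℝ] ℝ) :=
  ∑ i, (ContinuousLinearMap.proj i).smulRight (ContinuousLinearMap.proj (R := ℝ) (φ := fun _ : Fin m => ℝ) i)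

lemma dotL_apply (φ v : Fin m → ℝ) : dotL φ v = v ⬝ᵥ φ := by
  simp only [dotL, sum_apply, ContinuousLinearMap.smulRight_apply,
    ContinuousLinearMap.proj_apply, smul_apply, smul_eq_mul, dotProduct]
  refine Finset.sum_congr rfl fun i _ => mul_comm _ _

lemma cont_hh (hK : NB K) : Continuous (hh K) :=
  continuous_gauge (nb_pol hK).conv (mem_interior_iff_mem_nhds.1 (nb_pol hK).zero)

/-- a function of polynomial growth -/
structure PG (g : (Fin m → ℝ) → ℝ) : Prop where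
  cont : Continuous g
  bd : ∃ C : ℝ, ∃ k : ℕ, 0 ≤ C ∧ ∀ φ, |g φ| ≤ C * (1 + ‖φ‖) ^ k

lemma one_add_pow_le (k : ℕ) (x : ℝ) (hx : 0 ≤ x) : (1 + x) ^ k ≤ 2 ^ k * (1 + x ^ k) := by
  rcases le_total x 1 with h | h
  · calc (1 + x) ^ k ≤ 2 ^ k := by gcongr; linarith
      _ ≤ 2 ^ k * (1 + x ^ k) := by
        have : (0:ℝ) ≤ 2 ^ k * x ^ k := by positivity
        linarith
  · calc (1 + x) ^ k ≤ (2 * x) ^ k := by gcongr; linarith
      _ = 2 ^ k * x ^ k := mul_pow _ _ _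
      _ ≤ 2 ^ k * (1 + x ^ k) := by
        have : (0:ℝ) ≤ 2 ^ k := by positivity
        nlinarith

lemma PG.dom {g : (Fin m → ℝ) → ℝ} (hg : PG g) {c : ℝ} (hc : 0 < c) :
    Integrable fun φ => |g φ| * Real.exp (-(c * ‖φ‖)) := by
  obtain ⟨C, k, hC, hb⟩ := hg.bd
  have h1 := ((integrable_exp_norm (m := m) hc).add (integrable_pow_exp_norm (m := m) hc k)).const_mul
    (C * 2 ^ k)
  have hcont := hg.cont
  refine h1.mono' (by fun_prop) (Filter.Eventually.of_forall fun φ => ?_)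
  rw [Real.norm_eq_abs, abs_of_nonneg (by positivity)]
  have h2 : |g φ| ≤ C * 2 ^ k * (1 + ‖φ‖ ^ k) := by
    calc |g φ| ≤ C * (1 + ‖φ‖) ^ k := hb φ
      _ ≤ C * (2 ^ k * (1 + ‖φ‖ ^ k)) := by gcongr; exact one_add_pow_le k _ (norm_nonneg _)
      _ = _ := by ring
  calc |g φ| * Real.exp (-(c * ‖φ‖)) ≤ C * 2 ^ k * (1 + ‖φ‖ ^ k) * Real.exp (-(c * ‖φ‖)) := by gcongr
    _ = _ := by simp only [Pi.add_apply]; ring

lemma PG.mul {g h : (Fin m → ℝ) → ℝ} (hg : PG g) (hh' : PG h) : PG fun φ => g φ * h φ := by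
  obtain ⟨C, k, hC, hb⟩ := hg.bd
  obtain ⟨D, l, hD, hb'⟩ := hh'.bd
  refine ⟨hg.cont.mul hh'.cont, C * D, k + l, by positivity, fun φ => ?_⟩
  rw [abs_mul, pow_add]
  calc |g φ| * |h φ| ≤ (C * (1 + ‖φ‖) ^ k) * (D * (1 + ‖φ‖) ^ l) := by
        gcongr
        · exact hb φ
        · exact hb' φ
    _ = _ := by ring

lemma PG.const (a : ℝ) : PG fun _ : Fin m → ℝ => a :=
  ⟨continuous_const, |a|, 0, abs_nonneg _, fun φ => by simp⟩

lemma PG.coord (i : Fin m) : PG fun φ : Fin m → ℝ => φ i := by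
  refine ⟨continuous_apply i, 1, 1, zero_le_one, fun φ => ?_⟩
  rw [one_mul, pow_one]
  have := norm_le_pi_norm φ i
  rw [Real.norm_eq_abs] at this
  linarith

lemma PG.add {g h : (Fin m → ℝ) → ℝ} (hg : PG g) (hh' : PG h) : PG fun φ => g φ + h φ := by
  obtain ⟨C, k, hC, hb⟩ := hg.bd
  obtain ⟨D, l, hD, hb'⟩ := hh'.bd
  refine ⟨hg.cont.add hh'.cont, C + D, k + l, by positivity, fun φ => ?_⟩
  have h1 : (1 : ℝ) ≤ 1 + ‖φ‖ := by linarith [norm_nonneg φ]
  have h2 : (1 + ‖φ‖) ^ k ≤ (1 + ‖φ‖) ^ (k + l) := pow_le_pow_right₀ h1 (by omega)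
  have h3 : (1 + ‖φ‖) ^ l ≤ (1 + ‖φ‖) ^ (k + l) := pow_le_pow_right₀ h1 (by omega)
  calc |g φ + h φ| ≤ |g φ| + |h φ| := abs_add_le _ _
    _ ≤ C * (1 + ‖φ‖) ^ k + D * (1 + ‖φ‖) ^ l := add_le_add (hb φ) (hb' φ)
    _ ≤ C * (1 + ‖φ‖) ^ (k + l) + D * (1 + ‖φ‖) ^ (k + l) := by gcongr
    _ = _ := by ring

lemma PG.dot (v : Fin m → ℝ) : PG fun φ : Fin m → ℝ => v ⬝ᵥ φ := by
  refine ⟨by unfold dotProduct; fun_prop, ∑ i, |v i|, 1, Finset.sum_nonneg fun i _ => abs_nonneg _,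
    fun φ => ?_⟩
  rw [pow_one, Finset.sum_mul]
  unfold dotProduct
  refine (Finset.abs_sum_le_sum_abs _ _).trans (Finset.sum_le_sum fun i _ => ?_)
  rw [abs_mul]
  have := norm_le_pi_norm φ i
  rw [Real.norm_eq_abs] at this
  have h2 : |φ i| ≤ 1 + ‖φ‖ := by linarith
  gcongr

lemma PG.dotL : PG fun φ : Fin m → ℝ => ‖dotL φ‖ := by
  refine ⟨by fun_prop, ‖(Pool.Agent.U958.HC.dotL : (Fin m → ℝ) →L[ℝ] _)‖, 1,
    ContinuousLinearMap.opNorm_nonneg _, fun φ => ?_⟩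
  rw [abs_of_nonneg (norm_nonneg _), pow_one]
  refine (ContinuousLinearMap.le_opNorm _ _).trans ?_
  have := ContinuousLinearMap.opNorm_nonneg (Pool.Agent.U958.HC.dotL : (Fin m → ℝ) →L[ℝ] _)
  gcongr
  linarith

lemma hh_nonneg (_hK : NB K) (φ : Fin m → ℝ) : 0 ≤ hh K φ := gauge_nonneg _

lemma hh_bd (hK : NB K) : ∃ C : ℝ, 0 ≤ C ∧ ∀ φ, hh K φ ≤ C * ‖φ‖ := by
  obtain ⟨R, hR⟩ := hK.comp.isBounded.exists_norm_le
  have hR0 : 0 ≤ R := (norm_nonneg _).trans (hR 0 (interior_subset hK.zero))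
  refine ⟨m * R, by positivity, fun φ => ?_⟩
  rw [hh_le_iff hK]
  intro x hx
  unfold dotProduct
  refine (Finset.sum_le_card_nsmul _ _ (R * ‖φ‖) fun j _ => ?_).trans (by simp [mul_assoc])
  have h4 := norm_le_pi_norm φ j
  have h5 := (norm_le_pi_norm x j).trans (hR x hx)
  rw [Real.norm_eq_abs] at h4 h5
  calc x j * φ j ≤ |x j * φ j| := le_abs_self _
    _ = |x j| * |φ j| := abs_mul _ _
    _ ≤ R * ‖φ‖ := mul_le_mul h5 h4 (abs_nonneg _) hR0

lemma PG.hh (hK : NB K) : PG (hh K) := by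
  obtain ⟨C, hC, hb⟩ := hh_bd hK
  refine ⟨cont_hh hK, C, 1, hC, fun φ => ?_⟩
  rw [pow_one, abs_of_nonneg (hh_nonneg hK φ)]
  refine (hb φ).trans ?_
  gcongr
  linarith

lemma PG.neg {g : (Fin m → ℝ) → ℝ} (hg : PG g) : PG fun φ => - g φ := by
  have := (PG.const (m := m) (-1)).mul hg
  simpa using this

/-- the weight -/
noncomputable def ww (K : Set (Fin m → ℝ)) (y φ : Fin m → ℝ) : ℝ := Real.exp (y ⬝ᵥ φ - hh K φ)

lemma cont_ww (hK : NB K) (y : Fin m → ℝ) : Continuous (ww K y) := by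
  have h1 := cont_hh hK
  have h2 := (PG.dot y).cont
  unfold ww
  fun_prop

lemma ww_pos (K : Set (Fin m → ℝ)) (y φ : Fin m → ℝ) : 0 < ww K y φ := Real.exp_pos _

/-- `∫ g(φ) exp (⟨y,φ⟩ - h(φ)) dφ` -/
noncomputable def II (K : Set (Fin m → ℝ)) (g : (Fin m → ℝ) → ℝ) (y : Fin m → ℝ) : ℝ :=
  ∫ φ, g φ * ww K y φ

lemma integrable_ww (hK : NB K) {y : Fin m → ℝ} (hy : y ∈ interior K) {g : (Fin m → ℝ) → ℝ}
    (hg : PG g) : Integrable fun φ => g φ * ww K y φ := by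
  obtain ⟨c, hc, h⟩ := decay hK hy
  have h1 := hg.dom hc
  have h2 := cont_ww hK y
  have h3 := hg.cont
  refine h1.mono' (by fun_prop) (Filter.Eventually.of_forall fun φ => ?_)
  rw [Real.norm_eq_abs, abs_mul, abs_of_pos (ww_pos K y φ)]
  unfold ww
  have h4 := (h y (by simpa using hc)).2 φ
  gcongr
  linarith

lemma hasFDerivAt_II (hK : NB K) {y : Fin m → ℝ} (hy : y ∈ interior K) {g : (Fin m → ℝ) → ℝ}
    (hg : PG g) : HasFDerivAt (II K g) (∫ φ, (g φ * ww K y φ) • dotL φ) y := by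
  obtain ⟨c, hc, h⟩ := decay hK hy
  have hcont := hg.cont
  have hn := PG.dotL (m := m)
  have hdom := (hg.mul hn).dom hc
  unfold II
  refine hasFDerivAt_integral_of_dominated_of_fderiv_le
    (F := fun y φ => g φ * ww K y φ) (F' := fun y φ => (g φ * ww K y φ) • dotL φ)
    (bound := fun φ => |g φ * ‖dotL φ‖| * Real.exp (-(c * ‖φ‖)))
    (Metric.ball_mem_nhds y hc) ?_ (integrable_ww hK hy hg) ?_ ?_ hdom ?_
  · refine Filter.Eventually.of_forall fun z => ?_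
    have := cont_ww hK z
    fun_prop
  · have := cont_ww hK y
    fun_prop
  · refine Filter.Eventually.of_forall fun φ z hz => ?_
    rw [norm_smul, Real.norm_eq_abs, abs_mul, abs_mul, abs_of_pos (ww_pos K z φ),
      abs_of_nonneg (norm_nonneg (dotL φ))]
    have h4 := (h z (by rwa [mem_ball_iff_norm] at hz)).2 φ
    have h5 : ww K z φ ≤ Real.exp (-(c * ‖φ‖)) := by
      unfold ww
      gcongr
      linarith
    calc |g φ| * ww K z φ * ‖dotL φ‖ ≤ |g φ| * Real.exp (-(c * ‖φ‖)) * ‖dotL φ‖ := by gcongr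
      _ = _ := by ring
  · refine Filter.Eventually.of_forall fun φ z hz => ?_
    have h1 : HasFDerivAt (fun y : Fin m → ℝ => y ⬝ᵥ φ - hh K φ) (dotL φ) z := by
      have h2 : HasFDerivAt (fun y : Fin m → ℝ => dotL φ y - hh K φ) (dotL φ) z :=
        (dotL φ).hasFDerivAt.sub_const _
      simpa only [dotL_apply] using h2
    have h3 := (h1.exp).const_mul (g φ)
    rw [smul_smul] at h3
    exact h3

lemma II_fderiv_apply (hK : NB K) {y : Fin m → ℝ} (hy : y ∈ interior K) {g : (Fin m → ℝ) → ℝ}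
    (hg : PG g) (v : Fin m → ℝ) :
    (∫ φ, (g φ * ww K y φ) • dotL φ) v = II K (fun φ => g φ * (v ⬝ᵥ φ)) y := by
  have hint : Integrable fun φ => (g φ * ww K y φ) • dotL φ := by
    have hn := PG.dotL (m := m)
    have h1 := integrable_ww hK hy (hg.mul hn)
    have hcont := hg.cont
    have := cont_ww hK y
    refine h1.mono (by fun_prop) (Filter.Eventually.of_forall fun φ => ?_)
    rw [norm_smul, norm_mul, norm_mul, norm_mul, norm_norm]
    exact le_of_eq (by ring)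
  rw [ContinuousLinearMap.integral_apply hint]
  unfold II
  refine integral_congr_ae (Filter.Eventually.of_forall fun φ => ?_)
  simp only [smul_apply, dotL_apply, smul_eq_mul]
  ring

end Pool.Agent.U958.HC
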