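import Pool.Agent.U958.HC.Cov

set_option autoImplicit false

/-! helper958: the mean of `h(φ) - ⟨y,φ⟩` is `m`; lower bound for the determinant of the covariance
matrix by comparison with a Gaussian. -/

open MeasureTheory Set
open scoped ENNReal Pointwise Matrix Topology

namespace Pool.Agent.U958.HC

open H801NS

variable {m : ℕ} {K : Set (Fin m → ℝ)} {y : Fin m → ℝ}

/-- the exponent -/
noncomputable def kk (K : Set (Fin m → ℝ)) (y φ : Fin m → ℝ) : ℝ := hh K φ - y ⬝ᵥ φ

lemma PG.kk (hK : NB K) (y : Fin m → ℝ) : PG (kk K y) := by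
  have h := (PG.hh hK).add (PG.dot y).neg
  have e : HC.kk K y = fun φ => HC.hh K φ + -(y ⬝ᵥ φ) := by
    funext φ
    simp only [HC.kk, sub_eq_add_neg]
  rw [e]
  exact h

lemma ww_eq (y φ : Fin m → ℝ) : ww K y φ = Real.exp (-(kk K y φ)) := by
  unfold ww kk
  congr 1
  ring

lemma kk_smul (y φ : Fin m → ℝ) {t : ℝ} (ht : 0 ≤ t) : kk K y (t • φ) = t * kk K y φ := by
  unfold kk hh
  rw [gauge_smul_of_nonneg ht, dotProduct_smul, smul_eq_mul, smul_eq_mul]
  ring

lemma integral_scaled (hK : NB K) (hy : y ∈ interior K) {t : ℝ} (ht : 0 < t) :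
    Integrable (fun φ => Real.exp (-(t * kk K y φ))) ∧
    ∫ φ, Real.exp (-(t * kk K y φ)) = (t ^ m)⁻¹ * ZZ K y := by
  have hint := integrable_ww hK hy (PG.const 1)
  simp only [one_mul] at hint
  have e : (fun φ => Real.exp (-(t * kk K y φ))) = fun φ => ww K y (t • φ) := by
    funext φ
    rw [ww_eq, kk_smul y φ ht.le]
  constructor
  · rw [e]
    exact hint.comp_smul ht.ne'
  · rw [e, Measure.integral_comp_smul, Module.finrank_fin_fun, smul_eq_mul,
      abs_of_pos (by positivity)]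
    congr 1
    unfold ZZ II
    simp only [one_mul]

/-- the mean of `h(φ) - ⟨y,φ⟩` is the dimension -/
theorem EE_kk (hK : NB K) (hy : y ∈ interior K) : EE K (kk K y) y = m := by
  have hZ := ZZ_pos hK hy
  set A := II K (kk K y) y with hA
  set f : ℝ → ℝ := fun t => (t ^ m)⁻¹ * ZZ K y - ZZ K y + (t - 1) * A with hf
  have hnn : ∀ t, 0 < t → 0 ≤ f t := by
    intro t ht
    obtain ⟨hi, hv⟩ := integral_scaled hK hy ht
    have hint := integrable_ww hK hy (PG.const 1)
    have hint2 := integrable_ww hK hy (PG.kk hK y)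
    have h1 : ∫ φ, (Real.exp (-(t * kk K y φ)) - 1 * ww K y φ + (t - 1) * (kk K y φ * ww K y φ)) =
        f t := by
      have h5 := integral_add (hi.sub hint) (hint2.const_mul (t - 1))
      have h6 := integral_sub hi hint
      simp only [Pi.sub_apply] at h5
      rw [h5, h6, hv, integral_const_mul (t - 1)]
      rfl
    rw [← h1]
    refine integral_nonneg fun φ => ?_
    simp only [Pi.zero_apply]
    have h2 : Real.exp (-(t * kk K y φ)) = ww K y φ * Real.exp (-((t - 1) * kk K y φ)) := by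
      rw [ww_eq, ← Real.exp_add]
      congr 1
      ring
    rw [h2]
    have h3 := Real.add_one_le_exp (-((t - 1) * kk K y φ))
    have h4 := ww_pos K y φ
    nlinarith
  have hf1 : f 1 = 0 := by
    simp [hf]
  have hmin : IsLocalMin f 1 := by
    filter_upwards [lt_mem_nhds (show (0:ℝ) < 1 by norm_num)] with t ht
    rw [hf1]
    exact hnn t ht
  have hder : HasDerivAt f (-(m : ℝ) * ZZ K y + A) 1 := by
    have h1 : HasDerivAt (fun t : ℝ => (t ^ m)⁻¹) (-(m : ℝ)) 1 := by
      have h2 := ((hasDerivAt_pow m (1:ℝ)).inv (by simp))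
      have e : -(↑m * (1:ℝ) ^ (m - 1)) / ((1:ℝ) ^ m) ^ 2 = -(m : ℝ) := by simp
      rw [e] at h2
      exact h2
    have h3 := ((h1.mul_const (ZZ K y)).sub_const (ZZ K y)).add
      (((hasDerivAt_id (1:ℝ)).sub_const 1).mul_const A)
    rw [one_mul] at h3
    exact h3
  have h0 := hmin.hasDerivAt_eq_zero hder
  unfold EE
  rw [div_eq_iff hZ.ne']
  linarith

lemma exists_sqrt {A : Matrix (Fin m) (Fin m) ℝ} (hA : A.PosDef) :
    ∃ B : Matrix (Fin m) (Fin m) ℝ, A = Bᵀ * B := by
  open scoped MatrixOrder ComplexOrder in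
  obtain ⟨B, hB⟩ := CStarAlgebra.nonneg_iff_eq_star_mul_self.mp hA.posSemidef.nonneg
  refine ⟨B, ?_⟩
  rw [hB, Matrix.star_eq_conjTranspose]
  simp

lemma gauss_std : (∫ x : Fin m → ℝ, Real.exp (-(1 / 2) * ∑ i, x i ^ 2)) =
    Real.sqrt (2 * Real.pi) ^ m ∧
    Integrable fun x : Fin m → ℝ => Real.exp (-(1 / 2) * ∑ i, x i ^ 2) := by
  have e : (fun x : Fin m → ℝ => Real.exp (-(1 / 2) * ∑ i, x i ^ 2)) =
      fun x => ∏ i, Real.exp (-(1 / 2) * x i ^ 2) := by
    funext x
    rw [← Real.exp_sum, Finset.mul_sum]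
  constructor
  · rw [e]
    have h := integral_fintype_prod_eq_pow (𝕜 := ℝ) (ι := Fin m) (E := ℝ) (μ := volume)
      (fun t : ℝ => Real.exp (-(1 / 2) * t ^ 2))
    rw [← volume_pi] at h
    rw [h, integral_gaussian, Fintype.card_fin]
    congr 2
    ring
  · rw [e]
    exact Integrable.fintype_prod (f := fun (_ : Fin m) t => Real.exp (-(1 / 2) * t ^ 2))
      (fun i => integrable_exp_neg_mul_sq (by norm_num))

lemma gauss_lin {B : Matrix (Fin m) (Fin m) ℝ} (hB : B.det ≠ 0) (b : Fin m → ℝ) :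
    (∫ φ : Fin m → ℝ, Real.exp (-(1 / 2) * ∑ i, ((B *ᵥ (φ - b)) i) ^ 2)) =
      |B.det|⁻¹ * Real.sqrt (2 * Real.pi) ^ m ∧
    Integrable fun φ : Fin m → ℝ => Real.exp (-(1 / 2) * ∑ i, ((B *ᵥ (φ - b)) i) ^ 2) := by
  set g : (Fin m → ℝ) → ℝ := fun x => Real.exp (-(1 / 2) * ∑ i, x i ^ 2) with hg
  have hgc : Continuous g := by
    simp only [hg]
    fun_prop
  have hmap := Real.map_matrix_volume_pi_eq_smul_volume_pi hB
  have hmeas : Measurable (Matrix.toLin' B) := by
    have : Continuous (Matrix.toLin' B) := (Matrix.toLin' B).continuous_of_finiteDimensional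
    exact this.measurable
  have hint0 : Integrable g (Measure.map (Matrix.toLin' B) volume) := by
    rw [hmap]
    exact (gauss_std (m := m)).2.smul_measure (by simp)
  have hint1 : Integrable (fun φ => g (Matrix.toLin' B φ)) :=
    (integrable_map_measure hgc.aestronglyMeasurable hmeas.aemeasurable).1 hint0
  have hval : ∫ φ, g (Matrix.toLin' B φ) = |B.det|⁻¹ * Real.sqrt (2 * Real.pi) ^ m := by
    rw [← integral_map hmeas.aemeasurable hgc.aestronglyMeasurable, hmap, integral_smul_measure,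
      ENNReal.toReal_ofReal (abs_nonneg _), (gauss_std (m := m)).1, abs_inv, smul_eq_mul]
  constructor
  · rw [← hval, ← integral_sub_right_eq_self (fun φ => g (Matrix.toLin' B φ)) b]
    rfl
  · exact hint1.comp_sub_right b

/-- **Determinant bound.** `e^m F(y)² ≤ (2π)^m det Cov_y` -/
theorem det_bound (hK : NB K) (hy : y ∈ interior K) :
    Real.exp m * ZZ K y ^ 2 ≤ (2 * Real.pi) ^ m * (CC K y).det := by
  have hP := posDef_CC hK hy
  have hdet := hP.det_pos
  obtain ⟨B, hB⟩ := exists_sqrt hP.inv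
  have hZ := ZZ_pos hK hy
  have hdetB : B.det ^ 2 = ((CC K y).det)⁻¹ := by
    have h1 := congrArg Matrix.det hB
    rw [Matrix.det_mul, Matrix.det_transpose, Matrix.det_nonsing_inv, Ring.inverse_eq_inv'] at h1
    rw [h1]
    ring
  have hB0 : B.det ≠ 0 := by
    intro h0
    rw [h0] at hdetB
    have := inv_pos.2 hdet
    rw [← hdetB] at this
    simp at this
  set b := GG K y with hb
  set q : (Fin m → ℝ) → ℝ := fun φ => ∑ i, ((B *ᵥ (φ - b)) i) ^ 2 with hq
  have hqi : ∀ i, (fun φ : Fin m → ℝ => ((B *ᵥ (φ - b)) i) ^ 2) =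
      fun φ => ((B i) ⬝ᵥ φ - (B i) ⬝ᵥ b) ^ 2 := by
    intro i
    funext φ
    rw [Matrix.mulVec, dotProduct_sub]
  have hPq : PG q := by
    refine PG.sum _ fun i => ?_
    rw [hqi]
    exact PG.sq_sub _ _
  have hEq : EE K q y = m := by
    have h1 := EE_sum hK hy Finset.univ (f := fun i (φ : Fin m → ℝ) => ((B *ᵥ (φ - b)) i) ^ 2)
      (fun i => by rw [hqi]; exact PG.sq_sub _ _)
    rw [hq, h1]
    have h2 : ∀ i, EE K (fun φ : Fin m → ℝ => ((B *ᵥ (φ - b)) i) ^ 2) y =
        (B * (CC K y) * Bᵀ) i i := by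
      intro i
      rw [hqi, ← quad_CC hK hy]
      rw [Matrix.mul_assoc, Matrix.mul_apply]
      unfold dotProduct
      refine Finset.sum_congr rfl fun j _ => ?_
      congr 1
    simp_rw [h2]
    have h3 : ∑ i, (B * (CC K y) * Bᵀ) i i = (B * (CC K y) * Bᵀ).trace := rfl
    rw [h3, Matrix.mul_assoc, Matrix.trace_mul_comm, Matrix.mul_assoc, ← hB,
      Matrix.mul_nonsing_inv _ (isUnit_iff_ne_zero.2 hdet.ne'), Matrix.trace_one, Fintype.card_fin]
  have hEq' : II K q y = m * ZZ K y := by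
    unfold EE at hEq
    rwa [div_eq_iff hZ.ne'] at hEq
  have hEk : II K (kk K y) y = m * ZZ K y := by
    have := EE_kk hK hy
    unfold EE at this
    rwa [div_eq_iff hZ.ne'] at this
  obtain ⟨hG1, hG2⟩ := gauss_lin hB0 b
  -- comparison
  have hcomp : Real.exp (m / 2) * ZZ K y ≤ |B.det|⁻¹ * Real.sqrt (2 * Real.pi) ^ m := by
    rw [← hG1]
    set F : (Fin m → ℝ) → ℝ := fun φ =>
      (1 - m / 2 : ℝ) + (kk K y φ + (-(1 / 2)) * q φ) with hF
    have hPF : PG F := (PG.const _).add ((PG.kk hK y).add ((PG.const _).mul hPq))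
    have hIF : II K F y = ZZ K y := by
      have h1 := II_add hK hy (PG.const (m := m) (1 - m / 2 : ℝ))
        ((PG.kk hK y).add ((PG.const (-(1 / 2))).mul hPq))
      have h2 := II_add hK hy (PG.kk hK y) ((PG.const (-(1 / 2))).mul hPq)
      rw [h2, II_const_mul, hEq', hEk] at h1
      have h3 := II_const_mul (K := K) (y := y) (1 - m / 2 : ℝ) (fun _ => 1)
      simp only [mul_one] at h3
      rw [h3] at h1
      rw [hF, h1]
      rw [show II K (fun _ => 1) y = ZZ K y from rfl]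
      ring
    have h4 : Real.exp (m / 2) * ZZ K y = ∫ φ, Real.exp (m / 2) * (F φ * ww K y φ) := by
      rw [integral_const_mul, ← hIF]
      rfl
    rw [h4]
    refine integral_mono ((integrable_ww hK hy hPF).const_mul _) hG2 fun φ => ?_
    simp only
    rw [show (∑ i, ((B *ᵥ (φ - b)) i) ^ 2) = q φ from rfl]
    have h5 : Real.exp (-(1 / 2) * q φ) =
        ww K y φ * (Real.exp (m / 2) * Real.exp (kk K y φ - (1 / 2) * q φ - m / 2)) := by
      rw [ww_eq, ← Real.exp_add, ← Real.exp_add]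
      congr 1
      ring
    rw [h5]
    have h6 := Real.add_one_le_exp (kk K y φ - (1 / 2) * q φ - m / 2)
    have h7 := ww_pos K y φ
    have h8 := Real.exp_pos ((m : ℝ) / 2)
    calc Real.exp (m / 2) * (F φ * ww K y φ)
        = ww K y φ * (Real.exp (m / 2) * (kk K y φ - (1 / 2) * q φ - m / 2 + 1)) := by
          simp only [hF]
          ring
      _ ≤ _ := by gcongr
  have hsq := pow_le_pow_left₀ (by positivity) hcomp 2
  have e1 : (Real.exp (m / 2) * ZZ K y) ^ 2 = Real.exp m * ZZ K y ^ 2 := by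
    rw [mul_pow, ← Real.exp_nat_mul]
    congr 2
    push_cast
    ring
  have e2 : (|B.det|⁻¹ * Real.sqrt (2 * Real.pi) ^ m) ^ 2 = (2 * Real.pi) ^ m * (CC K y).det := by
    rw [mul_pow, inv_pow, sq_abs, hdetB, inv_inv, ← pow_mul, mul_comm m 2, pow_mul,
      Real.sq_sqrt (by positivity)]
    ring
  rwa [e1, e2] at hsq

end Pool.Agent.U958.HC
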