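import Pool.Agent.U958.HC.Det
import Pool.Agent.BSheet.L_santalo

set_option autoImplicit false

/-! helper958: the integral of `F²` over a slightly smaller copy of `K`: change of variables along
the mean map, and Santaló's inequality. -/

open MeasureTheory Set
open scoped ENNReal Pointwise Matrix Topology

namespace Pool.Agent.U958.HC

open H801NS

variable {m : ℕ} {K : Set (Fin m → ℝ)} {y : Fin m → ℝ}

lemma smul_subset_interior (hK : NB K) {t : ℝ} (ht0 : 0 ≤ t) (ht1 : t < 1) :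
    t • K ⊆ interior K := by
  rintro _ ⟨x, hx, rfl⟩
  have h := hK.conv.combo_interior_closure_mem_interior hK.zero (subset_closure hx)
    (show 0 < 1 - t by linarith) ht0 (by ring)
  simpa using h

lemma GG_mem (hK : NB K) (hm : 0 < m) {δ : ℝ} (hδ : 0 < δ) (hδ1 : δ ≤ 1)
    (hy : y ∈ (1 - δ) • K) : GG K y ∈ ((m : ℝ) / δ) • pol K := by
  have hyi : y ∈ interior K := smul_subset_interior hK (by linarith) (by linarith) hy
  have hm' : (0 : ℝ) < m := by exact_mod_cast hm
  have hpos : (0 : ℝ) < m / δ := by positivity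
  refine ⟨((m : ℝ) / δ)⁻¹ • GG K y, ?_, by simp only; rw [smul_smul, mul_inv_cancel₀ hpos.ne', one_smul]⟩
  intro x hx
  rw [dotProduct_smul, smul_eq_mul, inv_mul_le_iff₀ hpos, mul_one, ← EE_dot hK hyi]
  have h1 : EE K (fun φ => x ⬝ᵥ φ) y ≤ EE K (fun φ => δ⁻¹ * kk K y φ) y := by
    refine EE_mono hK hyi (PG.dot x) ((PG.const δ⁻¹).mul (PG.kk hK y)) fun φ => ?_
    have h2 := dot_le_hh hK hx φ
    obtain ⟨z, hz, rfl⟩ := hy
    have h3 := dot_le_hh hK hz φ
    have h4 : (1 - δ) * (z ⬝ᵥ φ) ≤ (1 - δ) * hh K φ :=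
      mul_le_mul_of_nonneg_left h3 (by linarith)
    have h5 : δ * hh K φ ≤ kk K ((1 - δ) • z) φ := by
      unfold kk
      rw [smul_dotProduct, smul_eq_mul]
      linarith
    rw [le_inv_mul_iff₀ hδ]
    nlinarith
  rw [EE_const_mul, EE_kk hK hyi] at h1
  calc EE K (fun φ => x ⬝ᵥ φ) y ≤ δ⁻¹ * m := h1
    _ = m / δ := by rw [div_eq_inv_mul]

theorem int_bound (hK : NB K) (hm : 0 < m) {δ : ℝ} (hδ : 0 < δ) (hδ1 : δ ≤ 1) :
    ∫⁻ y in (1 - δ) • K, FF K y ^ 2 ≤
      ENNReal.ofReal ((2 * Real.pi / Real.exp 1 * (m / δ)) ^ m) * volume (pol K) := by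
  have hm' : (0 : ℝ) < m := by exact_mod_cast hm
  have hsub : (1 - δ) • K ⊆ interior K := smul_subset_interior hK (by linarith) (by linarith)
  have hmeas : MeasurableSet ((1 - δ) • K) := (hK.comp.smul (1 - δ)).measurableSet
  have h1 := lintegral_abs_det_fderiv_eq_addHaar_image (volume : Measure (Fin m → ℝ)) hmeas
    (f := GG K) (f' := fun y => LinearMap.toContinuousLinearMap (Matrix.toLin' (CC K y)))
    (fun y hy => (hasFDerivAt_GG hK (hsub hy)).hasFDerivWithinAt)
    ((injOn_GG hK).mono hsub)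
  have h2 : volume (GG K '' ((1 - δ) • K)) ≤ volume (((m : ℝ) / δ) • pol K) := by
    refine measure_mono ?_
    rintro _ ⟨y, hy, rfl⟩
    exact GG_mem hK hm hδ hδ1 hy
  rw [← h1, Measure.addHaar_smul, Module.finrank_fin_fun, abs_of_pos (by positivity)] at h2
  have h3 : ∀ y ∈ (1 - δ) • K, FF K y ^ 2 ≤
      ENNReal.ofReal ((2 * Real.pi / Real.exp 1) ^ m) * ENNReal.ofReal
        |(LinearMap.toContinuousLinearMap (Matrix.toLin' (CC K y))).det| := by
    intro y hy
    have hyi := hsub hy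
    have hd : (LinearMap.toContinuousLinearMap (Matrix.toLin' (CC K y))).det = (CC K y).det := by
      rw [← LinearMap.det_toLin' (CC K y)]
      rfl
    rw [hd, ← ZZ_eq hK hyi, ← ENNReal.ofReal_pow (ZZ_pos hK hyi).le,
      ← ENNReal.ofReal_mul (by positivity)]
    refine ENNReal.ofReal_le_ofReal ?_
    rw [abs_of_pos (posDef_CC hK hyi).det_pos]
    have h4 := det_bound hK hyi
    have h5 : (2 * Real.pi / Real.exp 1) ^ m = (2 * Real.pi) ^ m / Real.exp m := by
      rw [div_pow, ← Real.exp_nat_mul, mul_one]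
    rw [h5, div_mul_eq_mul_div, le_div_iff₀ (Real.exp_pos _)]
    linarith
  calc ∫⁻ y in (1 - δ) • K, FF K y ^ 2
      ≤ ∫⁻ y in (1 - δ) • K, ENNReal.ofReal ((2 * Real.pi / Real.exp 1) ^ m) * ENNReal.ofReal
        |(LinearMap.toContinuousLinearMap (Matrix.toLin' (CC K y))).det| :=
        setLIntegral_mono' hmeas h3
    _ = ENNReal.ofReal ((2 * Real.pi / Real.exp 1) ^ m) * ∫⁻ y in (1 - δ) • K, ENNReal.ofReal
        |(LinearMap.toContinuousLinearMap (Matrix.toLin' (CC K y))).det| :=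
        lintegral_const_mul' _ _ ENNReal.ofReal_ne_top
    _ ≤ ENNReal.ofReal ((2 * Real.pi / Real.exp 1) ^ m) *
        (ENNReal.ofReal (((m : ℝ) / δ) ^ m) * volume (pol K)) := by gcongr
    _ = _ := by
      rw [← mul_assoc, ← ENNReal.ofReal_mul (by positivity), ← mul_pow]

lemma SS_symm (K : Set (Fin m → ℝ)) (y : Fin m → ℝ) : ∀ v ∈ SS K y, -v ∈ SS K y := by
  rintro v ⟨h1, h2⟩
  exact ⟨by rwa [← sub_eq_add_neg], by rwa [sub_neg_eq_add]⟩

lemma SS_nb (hK : NB K) (hy : y ∈ interior K) : NB (SS K y) := by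
  have h := tr_nb hK hy
  rw [← tr_inter]
  refine ⟨h.comp.inter_right ?_, h.conv.inter h.conv.neg, ?_⟩
  · exact h.comp.isClosed.neg
  · rw [interior_inter]
    refine ⟨h.zero, ?_⟩
    have : (0 : Fin m → ℝ) ∈ - interior (tr K y) := by simpa using h.zero
    rw [mem_interior]
    refine ⟨- interior (tr K y), ?_, isOpen_interior.neg, this⟩
    exact neg_subset_neg.2 interior_subset

lemma pol_anti {A B : Set (Fin m → ℝ)} (h : A ⊆ B) : pol B ⊆ pol A :=
  fun _ hy x hx => hy x (h hx)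

/-- Santaló's inequality for the symmetric part at the origin -/
theorem santalo_SS (hK : NB K) (hm : 0 < m) :
    volume (SS K 0) * volume (pol K) ≤
      ENNReal.ofReal ((2 * Real.pi * Real.exp 1 / m) ^ m) := by
  have hS := SS_nb hK hK.zero
  have hsub : SS K 0 ⊆ K := fun v hv => by simpa using hv.1
  have h1 : volume (pol K) ≤ volume (pol (SS K 0)) := measure_mono (pol_anti hsub)
  have h2 := BSheet.santalo (ι := Fin m) (by rwa [Fintype.card_fin]) (SS K 0) (pol (SS K 0))
    hS.comp (nb_pol hS).comp (SS_symm K 0) (by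
      intro x hx z hz
      have h3 := hx (-z) (SS_symm K 0 z hz)
      rw [neg_dotProduct] at h3
      rw [dotProduct_neg]
      exact h3) (fun x hx z hz => hz x hx)
  rw [Fintype.card_fin] at h2
  exact (mul_le_mul_right h1 _).trans h2

/-- **Main integral estimate** -/
theorem int_bound' (hK : NB K) (hm : 0 < m) {δ : ℝ} (hδ : 0 < δ) (hδ1 : δ ≤ 1) :
    volume (SS K 0) * ∫⁻ y in (1 - δ) • K, FF K y ^ 2 ≤
      ENNReal.ofReal ((4 * Real.pi ^ 2 / δ) ^ m) := by
  have hm' : (0 : ℝ) < m := by exact_mod_cast hm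
  calc volume (SS K 0) * ∫⁻ y in (1 - δ) • K, FF K y ^ 2
      ≤ volume (SS K 0) *
        (ENNReal.ofReal ((2 * Real.pi / Real.exp 1 * (m / δ)) ^ m) * volume (pol K)) := by
        gcongr
        exact int_bound hK hm hδ hδ1
    _ = ENNReal.ofReal ((2 * Real.pi / Real.exp 1 * (m / δ)) ^ m) *
        (volume (SS K 0) * volume (pol K)) := by ring
    _ ≤ ENNReal.ofReal ((2 * Real.pi / Real.exp 1 * (m / δ)) ^ m) *
        ENNReal.ofReal ((2 * Real.pi * Real.exp 1 / m) ^ m) := by
        gcongr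
        exact santalo_SS hK hm
    _ = _ := by
      rw [← ENNReal.ofReal_mul (by positivity), ← mul_pow]
      congr 2
      have := Real.exp_pos 1
      field_simp
      ring

end Pool.Agent.U958.HC
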