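import Pool.Agent.U958.HC.Share

set_option autoImplicit false

/-! helper958: the covering theorem in coordinates, origin as the centre. -/

open MeasureTheory Set
open scoped ENNReal Pointwise Matrix Topology

namespace Pool.Agent.U958.HC

open H801NS

variable {m : ℕ} {K : Set (Fin m → ℝ)}

lemma exp_share_le {M τ : ℝ} (hM : 0 < M) (hτ : 0 < τ) (m : ℕ) :
    Real.exp (-(M * (1 + τ) ^ m)) ≤
      Real.exp (-M) * (2 / (Real.exp 1 * M)) ^ (2 * m) * ((τ ^ m)⁻¹) ^ 2 := by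
  have h1 : 1 + m * τ ≤ (1 + τ) ^ m := one_add_mul_le_pow (by linarith) m
  have h2 : Real.exp (-(M * (1 + τ) ^ m)) ≤ Real.exp (-M) * Real.exp (-(M * τ / 2)) ^ (2 * m) := by
    rw [← Real.exp_nat_mul, ← Real.exp_add]
    apply Real.exp_le_exp.2
    push_cast
    nlinarith
  refine h2.trans ?_
  have h3 : Real.exp (-(M * τ / 2)) ≤ 2 / (Real.exp 1 * M) / τ := by
    rw [le_div_iff₀ hτ, le_div_iff₀ (by positivity)]
    have h4 := Real.add_one_le_exp (M * τ / 2 - 1)
    have h5 : Real.exp (-(M * τ / 2)) * τ * (Real.exp 1 * M) =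
        2 * (M * τ / 2) * Real.exp (1 - M * τ / 2) := by
      rw [Real.exp_sub, Real.exp_neg]
      field_simp
    rw [h5]
    have h6 : (M * τ / 2) * Real.exp (1 - M * τ / 2) ≤ 1 := by
      calc (M * τ / 2) * Real.exp (1 - M * τ / 2)
          ≤ Real.exp (M * τ / 2 - 1) * Real.exp (1 - M * τ / 2) := by
            gcongr
            linarith
        _ = 1 := by
          rw [← Real.exp_add]
          simp
    linarith
  have h7 : Real.exp (-(M * τ / 2)) ^ (2 * m) ≤ (2 / (Real.exp 1 * M) / τ) ^ (2 * m) := by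
    gcongr
  calc Real.exp (-M) * Real.exp (-(M * τ / 2)) ^ (2 * m)
      ≤ Real.exp (-M) * (2 / (Real.exp 1 * M) / τ) ^ (2 * m) := by gcongr
    _ = _ := by
      rw [div_pow (2 / (Real.exp 1 * M)) τ, mul_comm 2 m, pow_mul τ]
      field_simp

/-- the numerical inequality -/
lemma numeric {B : ℝ} (hB : 13 / 3 ≤ B) :
    Real.exp (-B) * (800 * Real.pi ^ 2 / (Real.exp 1 ^ 2 * B ^ 2)) < 1 := by
  have hB0 : 0 < B := by linarith
  have h1 : (2.7182818283 : ℝ) < Real.exp 1 := Real.exp_one_gt_d9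
  have h2 : Real.pi < 3.15 := Real.pi_lt_d2
  have hpi := Real.pi_pos
  have h3 : (4 / 3 : ℝ) ≤ Real.exp (1 / 3) := by
    have := Real.add_one_le_exp (1 / 3 : ℝ)
    linarith
  have h4 : Real.exp (19 / 3) = Real.exp 1 ^ 6 * Real.exp (1 / 3) := by
    rw [← Real.exp_nat_mul, ← Real.exp_add]
    congr 1
    norm_num
  have h5 : (403 : ℝ) ≤ Real.exp 1 ^ 6 := by
    calc (403 : ℝ) ≤ 2.7182818283 ^ 6 := by norm_num
      _ ≤ _ := by gcongr
  have h6 : (537 : ℝ) ≤ Real.exp (19 / 3) := by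
    rw [h4]
    nlinarith
  have h7 : (537 : ℝ) ≤ Real.exp (B + 2) :=
    h6.trans (Real.exp_le_exp.2 (by linarith))
  have h8 : (169 / 9 : ℝ) ≤ B ^ 2 := by nlinarith
  have h9 : 800 * Real.pi ^ 2 < Real.exp (B + 2) * B ^ 2 := by
    have h10 : Real.pi ^ 2 < 10 := by nlinarith
    nlinarith
  have e1 : Real.exp (B + 2) = Real.exp B * Real.exp 1 ^ 2 := by
    rw [← Real.exp_nat_mul, ← Real.exp_add]
    congr 1
    norm_num
  rw [e1] at h9
  rw [Real.exp_neg, ← mul_div_assoc, div_lt_one (by positivity), inv_mul_lt_iff₀ (Real.exp_pos _)]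
  linarith

lemma SS_zero_subset (K : Set (Fin m → ℝ)) : SS K 0 ⊆ K := fun v hv => by simpa using hv.1

theorem cover_nb (hK : NB K) (hm : 0 < m) :
    ∃ T : Finset (Fin m → ℝ), K ⊆ ⋃ t ∈ T, (fun x => t + x) '' interior K ∧
      (T.card : ℝ) ≤ 7 * m * 2 ^ m * (volume.real K / volume.real (SS K 0)) := by
  classical
  have hm' : (1 : ℝ) ≤ m := by exact_mod_cast hm
  have hS0 := SS_nb hK hK.zero
  set v0 := volume.real (SS K 0) with hv0
  set v := volume.real K with hv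
  have hv0p : 0 < v0 := NB.vr_pos hS0
  have hvp : 0 < v := NB.vr_pos hK
  have hv0v : v0 ≤ v := measureReal_mono (SS_zero_subset K) (NB.vol_lt_top hK).ne
  -- parameters
  obtain ⟨δ, hδ⟩ : ∃ δ : ℝ, δ = 1 / (5 * m) := ⟨_, rfl⟩
  have hδ0 : 0 < δ := by rw [hδ]; positivity
  have hδm : 5 * δ * m = 1 := by rw [hδ]; field_simp
  have hδ5 : δ ≤ 1 / 5 := by nlinarith
  obtain ⟨η, hη⟩ : ∃ η : ℝ, η = 2 * (δ / 3) / (1 - δ) := ⟨_, rfl⟩
  have hη0 : 0 < η := by rw [hη]; exact div_pos (by positivity) (by linarith)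
  have hη6 : η ≤ 1 / 6 := by
    rw [hη, div_le_iff₀ (by linarith)]
    linarith
  -- the net
  have hWo : IsOpen (η • interior (SS K 0)) := isOpen_interior.smul₀ hη0.ne'
  have hnegint : ∀ x ∈ interior (SS K 0), -x ∈ interior (SS K 0) := by
    have hneg : - interior (SS K 0) ⊆ interior (SS K 0) := by
      refine interior_maximal ?_ isOpen_interior.neg
      intro x hx
      have := SS_symm K 0 _ (interior_subset hx)
      simpa using this
    intro x hx
    exact hneg (by simpa using hx)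
  obtain ⟨A, hAK, hAsep, hAcov⟩ := exists_sep_net K (η • interior (SS K 0)) hK.comp hWo
    (hS0.conv.interior.smul η) ⟨0, hS0.zero, by simp⟩ (by
      rintro _ ⟨u, hu, rfl⟩
      exact ⟨-u, hnegint u hu, by simp⟩)
  -- counting
  have hcount := pack hK hm hδ0 (by linarith) A hAK (by
    intro a ha b hb hab
    rw [← hη]
    exact hAsep a ha b hb hab)
  rw [← hv0] at hcount
  -- shares
  set Q : Set (Fin m → ℝ) := (1 - η) • K with hQ
  have hc : (0 : ℝ) < 1 - η := by linarith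
  have hQv : volume.real Q = (1 - η) ^ m * v := by
    rw [hQ, measureReal_def, Measure.addHaar_smul, Module.finrank_fin_fun,
      abs_of_pos (by positivity), ENNReal.toReal_mul, ENNReal.toReal_ofReal (by positivity)]
    rfl
  have hQp : 0 < volume.real Q := by rw [hQv]; positivity
  have hQ0 : volume Q ≠ 0 := by
    intro h
    rw [measureReal_def, h] at hQp
    simp at hQp
  have hQt : volume Q ≠ ⊤ := (hK.comp.smul (1 - η)).measure_lt_top.ne
  have hTQ : ∀ a, TT K η a ⊆ Q := fun a t ht => ht.1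
  set s : (Fin m → ℝ) → ℝ := fun a => volume.real (TT K η a) / volume.real Q with hs
  have hs0 : ∀ a, 0 ≤ s a := fun a => div_nonneg measureReal_nonneg hQp.le
  have hs1 : ∀ a, s a ≤ 1 := by
    intro a
    simp only [hs]
    rw [div_le_one hQp]
    exact measureReal_mono (hTQ a) hQt
  obtain ⟨ρ, hρ⟩ : ∃ ρ : ℝ, ρ = (1 - 2 * η) / (2 * (1 + δ)) / (1 - η) := ⟨_, rfl⟩
  have hρ0 : 0 < ρ := by
    rw [hρ]
    exact div_pos (div_pos (by linarith) (by linarith)) hc
  obtain ⟨τ, hτ⟩ : ∃ τ : (Fin m → ℝ) → ℝ,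
      τ = fun a => (volume.real (SS K ((1 - δ) • a)) / v0) ^ ((m : ℝ)⁻¹) := ⟨_, rfl⟩
  have hSa : ∀ a ∈ A, NB (SS K ((1 - δ) • a)) := fun a ha => SS_nb hK
    (smul_subset_interior hK (by linarith) (by linarith) ⟨a, hAK a ha, rfl⟩)
  have hτ0 : ∀ a ∈ A, 0 < τ a := by
    intro a ha
    rw [hτ]
    exact Real.rpow_pos_of_pos (div_pos (NB.vr_pos (hSa a ha)) hv0p) _
  have hτm : ∀ a ∈ A, τ a ^ m = volume.real (SS K ((1 - δ) • a)) / v0 := by
    intro a ha
    rw [hτ]
    exact Real.rpow_inv_natCast_pow (div_pos (NB.vr_pos (hSa a ha)) hv0p).le hm.ne'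
  have hshare : ∀ a ∈ A, ρ ^ m * (v0 / v) * (1 + τ a) ^ m ≤ s a := by
    intro a ha
    have h1 := share hK hm hδ0 (by linarith) hη0.le (by linarith) (hAK a ha) (hτ0 a ha).le
      (by rw [hτm a ha, ← hv0, div_mul_cancel₀ _ hv0p.ne'])
    simp only [hs]
    rw [le_div_iff₀ hQp, hQv]
    refine le_trans (le_of_eq ?_) h1
    rw [hρ, div_pow _ (1 - η), ← hv0]
    field_simp
  -- number of translates
  obtain ⟨N, hN⟩ : ∃ N : ℕ, N = ⌊7 * m * 2 ^ m * (v / v0)⌋₊ := ⟨_, rfl⟩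
  have hNle : (N : ℝ) ≤ 7 * m * 2 ^ m * (v / v0) := by
    rw [hN]
    exact Nat.floor_le (by positivity)
  have hNge : 7 * m * 2 ^ m * (v / v0) - 1 ≤ N := by
    rw [hN]
    exact (Nat.sub_one_lt_floor _).le
  obtain ⟨q, hq⟩ : ∃ q : ℝ, q = 2 * ρ := ⟨_, rfl⟩
  have hq0 : 0 < q := by rw [hq]; positivity
  have hq2 : q = (3 - 7 * δ) / ((3 - 5 * δ) * (1 + δ)) := by
    have h1 : (0:ℝ) < 1 - δ := by linarith
    have e1 : 1 - η = (3 - 5 * δ) / (3 * (1 - δ)) := by
      rw [hη]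
      field_simp
      ring
    have e2 : 1 - 2 * η = (3 - 7 * δ) / (3 * (1 - δ)) := by
      rw [hη]
      field_simp
      ring
    have h2 : (0:ℝ) < 3 - 5 * δ := by linarith
    rw [hq, hρ, e1, e2]
    field_simp
  have hqm : 2 / 3 ≤ q ^ m := by
    have h2 : (0:ℝ) < 3 - 5 * δ := by linarith
    have h3 : m * (1 - q) ≤ 1 / 3 := by
      have e3 : 1 - q = 5 * δ * ((1 - δ) / ((3 - 5 * δ) * (1 + δ))) := by
        have hne : (3 - 5 * δ) * (1 + δ) ≠ 0 := by positivity
        rw [hq2, mul_div_assoc', eq_div_iff hne, sub_mul, div_mul_cancel₀ _ hne]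
        ring
      have e4 : m * (1 - q) = (1 - δ) / ((3 - 5 * δ) * (1 + δ)) := by
        rw [e3]
        calc (m : ℝ) * (5 * δ * ((1 - δ) / ((3 - 5 * δ) * (1 + δ))))
            = (5 * δ * m) * ((1 - δ) / ((3 - 5 * δ) * (1 + δ))) := by ring
          _ = _ := by rw [hδm, one_mul]
      rw [e4, div_le_div_iff₀ (by positivity) (by norm_num)]
      nlinarith
    have h4 := one_add_mul_le_pow (show (-2 : ℝ) ≤ q - 1 by linarith) m
    rw [add_sub_cancel] at h4
    linarith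
  have hq1 : q ≤ 1 := by
    have h2 : (0:ℝ) < 3 - 5 * δ := by linarith
    rw [hq2, div_le_one (by positivity)]
    nlinarith
  obtain ⟨M, hM⟩ : ∃ M : ℝ, M = N * (ρ ^ m * (v0 / v)) := ⟨_, rfl⟩
  have hMge : 13 / 3 * m ≤ M := by
    have h1 : (7 * m * 2 ^ m * (v / v0) - 1) * (ρ ^ m * (v0 / v)) ≤ M := by
      rw [hM]
      gcongr
    have h2 : (7 * m * 2 ^ m * (v / v0) - 1) * (ρ ^ m * (v0 / v)) =
        q ^ m * (7 * m - v0 / v * (1 / 2) ^ m) := by
      have e5 : (2:ℝ) ^ m * (1 / 2) ^ m = 1 := by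
        rw [← mul_pow]
        norm_num
      rw [hq, mul_pow]
      field_simp
      linear_combination v0 * e5
    have h3 : v0 / v ≤ 1 := (div_le_one hvp).2 hv0v
    have h4 : (1 / 2 : ℝ) ^ m ≤ 1 / 2 := by
      calc (1 / 2 : ℝ) ^ m ≤ (1 / 2) ^ 1 := pow_le_pow_of_le_one (by norm_num) (by norm_num) hm
        _ = 1 / 2 := pow_one _
    have h5 : v0 / v * (1 / 2) ^ m ≤ 1 / 2 := by
      calc v0 / v * (1 / 2) ^ m ≤ 1 * (1 / 2) := by gcongr
        _ = 1 / 2 := one_mul _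
    rw [h2] at h1
    have h6 : (13 / 2 : ℝ) * m ≤ 7 * m - v0 / v * (1 / 2) ^ m := by linarith
    calc 13 / 3 * (m : ℝ) = 2 / 3 * (13 / 2 * m) := by ring
      _ ≤ q ^ m * (7 * m - v0 / v * (1 / 2) ^ m) := by gcongr
      _ ≤ M := h1
  have hM0 : 0 < M := lt_of_lt_of_le (by positivity) hMge
  have hsum : ∑ a ∈ A, (1 - s a) ^ N < 1 := by
    have h1 : ∀ a ∈ A, (1 - s a) ^ N ≤ Real.exp (-M) * (2 / (Real.exp 1 * M)) ^ (2 * m) *
        (v0 / volume.real (SS K ((1 - δ) • a))) ^ 2 := by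
      intro a ha
      have h2 : (1 - s a) ^ N ≤ Real.exp (-(s a)) ^ N :=
        pow_le_pow_left₀ (by linarith [hs1 a]) (by
          have := Real.add_one_le_exp (-(s a))
          linarith) N
      have h3 : Real.exp (-(s a)) ^ N ≤ Real.exp (-(M * (1 + τ a) ^ m)) := by
        rw [← Real.exp_nat_mul]
        apply Real.exp_le_exp.2
        have h4 := mul_le_mul_of_nonneg_left (hshare a ha) (Nat.cast_nonneg N : (0:ℝ) ≤ N)
        rw [hM]
        linarith
      have h5 := exp_share_le hM0 (hτ0 a ha) m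
      rw [hτm a ha, inv_div] at h5
      exact h2.trans (h3.trans h5)
    calc ∑ a ∈ A, (1 - s a) ^ N
        ≤ ∑ a ∈ A, Real.exp (-M) * (2 / (Real.exp 1 * M)) ^ (2 * m) *
        (v0 / volume.real (SS K ((1 - δ) • a))) ^ 2 := Finset.sum_le_sum h1
      _ = Real.exp (-M) * (2 / (Real.exp 1 * M)) ^ (2 * m) *
        ∑ a ∈ A, (v0 / volume.real (SS K ((1 - δ) • a))) ^ 2 := by rw [Finset.mul_sum]
      _ ≤ Real.exp (-M) * (2 / (Real.exp 1 * M)) ^ (2 * m) *
        (8 * Real.pi ^ 2 / δ ^ 2) ^ m := by gcongr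
      _ = (Real.exp (-(M / m)) * (800 * Real.pi ^ 2 / (Real.exp 1 ^ 2 * (M / m) ^ 2))) ^ m := by
        rw [mul_pow (Real.exp (-(M / m))), ← Real.exp_nat_mul, pow_mul, mul_assoc, ← mul_pow]
        congr 1
        · congr 1
          field_simp
        · congr 1
          rw [hδ]
          field_simp
          norm_num
      _ < 1 := by
        have hB : 13 / 3 ≤ M / m := by
          rw [le_div_iff₀ (by linarith)]
          exact hMge
        exact pow_lt_one₀ (by positivity) (numeric hB) hm.ne'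
  obtain ⟨S, hS1, hS2, B', hB', hcov, hcard⟩ := pick (volume : Measure (Fin m → ℝ)) Q
    (TT K η) s (hK.comp.smul (1 - η)).measurableSet hQ0 hQt (fun a => TT_meas hK η a) hs1 N A
    (fun a _ => hTQ a) (fun a _ => by
      simp only [hs]
      rw [div_mul_cancel₀ _ hQp.ne'])
  have hB0 : B' = ∅ := by
    have h1 : (B'.card : ℝ) < 1 := lt_of_le_of_lt hcard hsum
    have h2 : B'.card < 1 := by exact_mod_cast h1
    exact Finset.card_eq_zero.1 (by omega)
  refine ⟨S, ?_, ?_⟩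
  · intro x hx
    obtain ⟨a, ha, w, hw, hxa⟩ := hAcov x hx
    obtain ⟨t, ht, hta⟩ := hcov a ha (by rw [hB0]; simp)
    rw [mem_iUnion₂]
    refine ⟨t, ht, x - t, ?_, by simp⟩
    obtain ⟨k, hk, hak⟩ := hta.2
    simp only at hxa hak
    have hw' : w ∈ interior K := interior_mono (SS_zero_subset K) hw
    have h1 := hK.conv.combo_interior_closure_mem_interior hw' (subset_closure hk)
      hη0 hc.le (by ring)
    have e1 : x - t = η • w + (1 - η) • k := by
      rw [hxa, hak]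
      abel
    rw [e1]
    exact h1
  · calc (S.card : ℝ) ≤ N := by exact_mod_cast hS1
      _ ≤ _ := hNle

end Pool.Agent.U958.HC
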