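import Pool.Agent.U958.HC.Int

set_option autoImplicit false

/-! helper958: counting the points of a net at which the symmetric part of `K` is small. -/

open MeasureTheory Set
open scoped ENNReal Pointwise Matrix Topology

namespace Pool.Agent.U958.HC

open H801NS

variable {m : ℕ} {K : Set (Fin m → ℝ)} {y : Fin m → ℝ}

/-- comparison of the symmetric parts at close points -/
lemma SS_close (hK : NB K) {a u : Fin m → ℝ} (ha : a ∈ K) (hu : u ∈ SS K 0) {δ l : ℝ}
    (hδ : 0 < δ) (hδ1 : δ < 1) (hl : 0 < l) :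
    SS K ((1 - δ) • a + (l * δ) • u) ⊆ (1 + l) • SS K ((1 - δ) • a) := by
  intro v hv
  have hl1 : (0:ℝ) < 1 + l := by linarith
  refine ⟨(1 + l)⁻¹ • v, ?_, by simp only; rw [smul_smul, mul_inv_cancel₀ hl1.ne', one_smul]⟩
  have hnu : -u ∈ K := by
    have := hu.2
    simpa using this
  -- the point `(1-δ) a - δ u`
  have hp : (1 - δ) • a + δ • (-u) ∈ K :=
    hK.conv ha hnu (by linarith) hδ.le (by ring)
  have key : ∀ w, ((1 - δ) • a + (l * δ) • u) + w ∈ K → (1 - δ) • a + (1 + l)⁻¹ • w ∈ K := by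
    intro w hw
    have h := hK.conv hw hp (a := (1 + l)⁻¹) (b := l * (1 + l)⁻¹) (by positivity) (by positivity)
      (by field_simp)
    convert h using 1
    have e : (1:ℝ) = (1 + l)⁻¹ + l * (1 + l)⁻¹ := by field_simp
    have e2 : (1 - δ) • a = ((1 + l)⁻¹ + l * (1 + l)⁻¹) • ((1 - δ) • a) := by
      rw [← e, one_smul]
    conv_lhs => rw [e2]
    module
  refine ⟨key v hv.1, ?_⟩
  have h2 := key (-v) (by rw [← sub_eq_add_neg]; exact hv.2)
  rwa [smul_neg, ← sub_eq_add_neg] at h2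

lemma NB.vr_pos (hK : NB K) : 0 < volume.real K := by
  rw [measureReal_def]
  exact ENNReal.toReal_pos (NB.vol_pos hK).ne' (NB.vol_lt_top hK).ne

lemma NB.ofReal_vr (hK : NB K) : ENNReal.ofReal (volume.real K) = volume K := by
  rw [measureReal_def, ENNReal.ofReal_toReal (NB.vol_lt_top hK).ne]

lemma vol_interior (hK : NB K) : volume (interior K) = volume K :=
  measure_interior_of_null_frontier (hK.conv.addHaar_frontier volume)

theorem pack (hK : NB K) (hm : 0 < m) {δ : ℝ} (hδ : 0 < δ) (hδ1 : δ < 1)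
    (A : Finset (Fin m → ℝ)) (hA : ∀ a ∈ A, a ∈ K)
    (hsep : ∀ a ∈ A, ∀ b ∈ A, a ≠ b → a - b ∉ (2 * (δ / 3) / (1 - δ)) • interior (SS K 0)) :
    ∑ a ∈ A, (volume.real (SS K 0) / volume.real (SS K ((1 - δ) • a))) ^ 2 ≤
      (8 * Real.pi ^ 2 / δ ^ 2) ^ m := by
  have hS0 := SS_nb hK hK.zero
  have hin : ∀ a ∈ A, (1 - δ) • a ∈ interior K := fun a ha =>
    smul_subset_interior hK (by linarith) (by linarith) ⟨a, hA a ha, rfl⟩
  have hSa : ∀ a ∈ A, NB (SS K ((1 - δ) • a)) := fun a ha => SS_nb hK (hin a ha)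
  set v0 := volume.real (SS K 0) with hv0
  have hv0p : 0 < v0 := NB.vr_pos hS0
  set r : ℝ := δ / 3 with hr
  have hr0 : 0 < r := by positivity
  set P : (Fin m → ℝ) → Set (Fin m → ℝ) :=
    fun a => ((1 - δ) • a) +ᵥ (r • interior (SS K 0)) with hP
  have hPo : ∀ a, IsOpen (P a) := fun a => (isOpen_interior.smul₀ hr0.ne').vadd _
  have hPm : ∀ a, MeasurableSet (P a) := fun a => (hPo a).measurableSet
  have hPv : ∀ a, volume (P a) = ENNReal.ofReal (r ^ m * v0) := by
    intro a
    simp only [hP]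
    rw [measure_vadd, Measure.addHaar_smul, Module.finrank_fin_fun, abs_of_pos (by positivity),
      vol_interior hS0, ENNReal.ofReal_mul (by positivity), hv0, NB.ofReal_vr hS0]
  have hmemP : ∀ a, ∀ z ∈ P a, ∃ u ∈ interior (SS K 0), z = (1 - δ) • a + r • u := by
    intro a z hz
    obtain ⟨w, ⟨u, hu, rfl⟩, rfl⟩ := hz
    exact ⟨u, hu, rfl⟩
  have hPsub : ∀ a ∈ A, P a ⊆ (1 - 2 * δ / 3) • K := by
    intro a ha z hz
    obtain ⟨u, hu, rfl⟩ := hmemP a z hz
    have hu' : u ∈ K := by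
      have := (interior_subset hu).1
      simpa using this
    have hc : (0:ℝ) < 1 - 2 * δ / 3 := by linarith
    refine ⟨((1 - δ) / (1 - 2 * δ / 3)) • a + (r / (1 - 2 * δ / 3)) • u,
      hK.conv (hA a ha) hu' (div_nonneg (by linarith) hc.le) (by positivity) ?_, ?_⟩
    · rw [← add_div, div_eq_one_iff_eq hc.ne', hr]
      ring
    · simp only
      rw [smul_add, smul_smul, smul_smul, mul_div_cancel₀ _ hc.ne', mul_div_cancel₀ _ hc.ne']
  have hdis : (A : Set (Fin m → ℝ)).PairwiseDisjoint P := by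
    intro a ha b hb hab
    rw [Function.onFun, Set.disjoint_left]
    intro z hza hzb
    obtain ⟨u, hu, rfl⟩ := hmemP a z hza
    obtain ⟨w, hw, he⟩ := hmemP b _ hzb
    refine hsep a ha b hb hab ?_
    have h1 : (0:ℝ) < 1 - δ := by linarith
    refine ⟨(1 / 2 : ℝ) • w + (1 / 2 : ℝ) • (-u), ?_, ?_⟩
    · have hnu : -u ∈ interior (SS K 0) := by
        have : (0:ℝ) < 1 := one_pos
        have hneg : - interior (SS K 0) ⊆ interior (SS K 0) := by
          refine interior_maximal ?_ isOpen_interior.neg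
          intro x hx
          have := SS_symm K 0 _ (interior_subset hx)
          simpa using this
        exact hneg (by simpa using hu)
      exact hS0.conv.interior hw hnu (by norm_num) (by norm_num) (by norm_num)
    · simp only
      have h2 : (1 - δ) • (a - b) = r • (w - u) := by
        have h3 : (1 - δ) • a + r • u - ((1 - δ) • b + r • w) = 0 := by rw [he, sub_self]
        have h4 : (1 - δ) • (a - b) - r • (w - u) =
            (1 - δ) • a + r • u - ((1 - δ) • b + r • w) := by module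
        rw [h3] at h4
        exact sub_eq_zero.1 h4
      have h5 : a - b = (1 - δ)⁻¹ • ((1 - δ) • (a - b)) := by
        rw [smul_smul, inv_mul_cancel₀ h1.ne', one_smul]
      rw [h5, h2, hr, smul_smul]
      have e : (2 * (δ / 3) / (1 - δ)) = 2 * ((1 - δ)⁻¹ * (δ / 3)) := by field_simp
      rw [e]
      module
  have hlow : ∀ a ∈ A, ∀ z ∈ P a,
      ENNReal.ofReal (((3 / 2 : ℝ) ^ m / volume.real (SS K ((1 - δ) • a))) ^ 2) ≤ FF K z ^ 2 := by
    intro a ha z hz
    have hsa := NB.vr_pos (hSa a ha)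
    have hzi : z ∈ interior K :=
      smul_subset_interior hK (by linarith) (by linarith) (hPsub a ha hz)
    obtain ⟨u, hu, rfl⟩ := hmemP a z hz
    have h1 := FF_ge hK hzi
    have h2 := SS_close hK (hA a ha) (interior_subset hu) hδ hδ1 (l := 1 / 3) (by norm_num)
    rw [show (1 / 3 : ℝ) * δ = r by rw [hr]; ring] at h2
    have h3 := measure_mono (μ := volume) h2
    rw [Measure.addHaar_smul, Module.finrank_fin_fun, abs_of_pos (by positivity),
      ← NB.ofReal_vr (hSa a ha), ← ENNReal.ofReal_mul (by positivity)] at h3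
    have h4 := h1.trans (mul_le_mul_right h3 _)
    have h5 : ENNReal.ofReal ((3 / 2 : ℝ) ^ m / volume.real (SS K ((1 - δ) • a))) ≤
        FF K ((1 - δ) • a + r • u) := by
      have h6 := ENNReal.div_le_of_le_mul h4
      refine le_trans (le_of_eq ?_) h6
      have e2 : (2 : ℝ≥0∞) ^ m = ENNReal.ofReal (2 ^ m) := by
        rw [ENNReal.ofReal_pow (by norm_num)]
        norm_num
      rw [e2, ← ENNReal.ofReal_div_of_pos (by positivity)]
      congr 1
      have e3 : (3 / 2 : ℝ) ^ m = 2 ^ m / (1 + 1 / 3 : ℝ) ^ m := by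
        rw [← div_pow]
        norm_num
      rw [e3, div_div]
    rw [ENNReal.ofReal_pow (by positivity)]
    exact pow_le_pow_left' h5 2
  have hint := int_bound' hK hm (δ := 2 * δ / 3) (by positivity) (by linarith)
  have hsum : ∑ a ∈ A, ENNReal.ofReal (r ^ m * v0) *
      ENNReal.ofReal (((3 / 2 : ℝ) ^ m / volume.real (SS K ((1 - δ) • a))) ^ 2) ≤
      ∫⁻ z in (1 - 2 * δ / 3) • K, FF K z ^ 2 := by
    calc ∑ a ∈ A, ENNReal.ofReal (r ^ m * v0) *
        ENNReal.ofReal (((3 / 2 : ℝ) ^ m / volume.real (SS K ((1 - δ) • a))) ^ 2)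
        ≤ ∑ a ∈ A, ∫⁻ z in P a, FF K z ^ 2 := by
          refine Finset.sum_le_sum fun a ha => ?_
          rw [← hPv a, mul_comm, ← setLIntegral_const]
          exact setLIntegral_mono' (hPm a) (hlow a ha)
      _ = ∫⁻ z in ⋃ a ∈ A, P a, FF K z ^ 2 :=
          (lintegral_biUnion_finset hdis (fun a _ => hPm a) _).symm
      _ ≤ _ := lintegral_mono_set (iUnion₂_subset hPsub)
  have hfin := (mul_le_mul_right hsum (volume (SS K 0))).trans hint
  rw [← NB.ofReal_vr hS0, ← hv0] at hfin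
  simp_rw [← ENNReal.ofReal_mul (show 0 ≤ r ^ m * v0 by positivity)] at hfin
  rw [← ENNReal.ofReal_sum_of_nonneg (fun a _ => by positivity),
    ← ENNReal.ofReal_mul hv0p.le, ENNReal.ofReal_le_ofReal_iff (by positivity)] at hfin
  have e1 : v0 * ∑ a ∈ A, r ^ m * v0 * ((3 / 2 : ℝ) ^ m / volume.real (SS K ((1 - δ) • a))) ^ 2 =
      (9 / 4 * r) ^ m * ∑ a ∈ A, (v0 / volume.real (SS K ((1 - δ) • a))) ^ 2 := by
    rw [Finset.mul_sum, Finset.mul_sum]
    refine Finset.sum_congr rfl fun a _ => ?_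
    rw [mul_pow, div_pow, div_pow, ← pow_mul, mul_comm m 2, pow_mul]
    norm_num
    ring
  rw [e1] at hfin
  have e2 : (4 * Real.pi ^ 2 / (2 * δ / 3)) ^ m =
      (9 / 4 * r) ^ m * (8 * Real.pi ^ 2 / δ ^ 2) ^ m := by
    rw [← mul_pow, hr]
    congr 1
    field_simp
    ring
  rw [e2] at hfin
  exact le_of_mul_le_mul_left hfin (by positivity)

end Pool.Agent.U958.HC
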