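import Pool.Agent.U958.HC.Pack
import Pool.Agent.H748R2.KB.TBM

set_option autoImplicit false

/-! helper958: the share of the translates `t + (1-η) K`, `t ∈ (1-η) K`, which contain a given point
`a` of `K` (Brunn-Minkowski); random translates; separated nets. -/

open MeasureTheory Set
open scoped ENNReal Pointwise Matrix Topology

namespace Pool.Agent.U958.HC

open H801NS

variable {m : ℕ} {K : Set (Fin m → ℝ)}

/-- the `t ∈ (1-η) K` with `a ∈ t + (1-η) K` -/
def TT (K : Set (Fin m → ℝ)) (η : ℝ) (a : Fin m → ℝ) : Set (Fin m → ℝ) :=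
  {t | t ∈ (1 - η) • K ∧ a - t ∈ (1 - η) • K}

lemma TT_meas (hK : NB K) (η : ℝ) (a : Fin m → ℝ) : MeasurableSet (TT K η a) := by
  have h := (hK.comp.smul (1 - η)).isClosed
  have h2 : IsClosed {t : Fin m → ℝ | a - t ∈ (1 - η) • K} :=
    h.preimage (by fun_prop)
  exact (h.inter h2).measurableSet

theorem share (hK : NB K) (hm : 0 < m) {δ η τ : ℝ} (hδ : 0 < δ) (hδ1 : δ < 1) (hη : 0 ≤ η)
    (hη1 : η < 1 / 2) {a : Fin m → ℝ} (ha : a ∈ K) (hτ : 0 ≤ τ)
    (hτS : τ ^ m * volume.real (SS K 0) ≤ volume.real (SS K ((1 - δ) • a))) :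
    ((1 - 2 * η) / (2 * (1 + δ))) ^ m * (volume.real (SS K 0) * (1 + τ) ^ m) ≤
      volume.real (TT K η a) := by
  have hS0 := SS_nb hK hK.zero
  have hy : (1 - δ) • a ∈ interior K :=
    smul_subset_interior hK (by linarith) (by linarith) ⟨a, ha, rfl⟩
  have hS := SS_nb hK hy
  set v0 := volume.real (SS K 0) with hv0
  have hv0p : 0 < v0 := NB.vr_pos hS0
  set α : ℝ := v0 ^ ((m : ℝ)⁻¹) with hα
  have hα0 : 0 ≤ α := by positivity
  have hαm : α ^ m = v0 := Real.rpow_inv_natCast_pow hv0p.le hm.ne'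
  have hBM := Pool.Agent.H748R2.KB.t_BM m (SS K 0) (SS K ((1 - δ) • a)) hS0.comp hS.comp
    ⟨0, interior_subset hS0.zero⟩ ⟨0, interior_subset hS.zero⟩ α (τ * α) hα0 (by positivity)
    (by rw [hαm]; exact le_rfl) (by rw [mul_pow, hαm]; exact hτS)
  have e1 : (α + τ * α) ^ m = v0 * (1 + τ) ^ m := by
    rw [← hαm, ← mul_pow]
    congr 1
    ring
  rw [e1] at hBM
  set μ : ℝ := (1 - 2 * η) / (2 * (1 + δ)) with hμ
  have hμ0 : 0 < μ := by
    rw [hμ]
    exact div_pos (by linarith) (by linarith)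
  have hμ1 : μ * (1 + δ) = 1 / 2 - η := by
    rw [hμ]
    field_simp
  have hμ2 : 0 ≤ 1 / 2 - μ * (1 - δ) := by nlinarith
  have hc : (0 : ℝ) < 1 - η := by linarith
  -- every point of the copy is in `(1-η) K`
  have key : ∀ u v, u ∈ K → (1 - δ) • a + v ∈ K →
      (1 / 2 : ℝ) • a + μ • (u + v) ∈ (1 - η) • K := by
    intro u v hu hv
    have h1 := hK.conv hv hu (a := μ / (2 * μ)) (b := μ / (2 * μ)) (by positivity) (by positivity)
      (by field_simp; norm_num)
    have h2 := hK.conv h1 ha (a := 2 * μ / (1 - η)) (b := (1 / 2 - μ * (1 - δ)) / (1 - η))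
      (by positivity) (by positivity) (by
        rw [← add_div, div_eq_one_iff_eq hc.ne']
        nlinarith)
    refine ⟨_, h2, ?_⟩
    simp only
    have e2 : μ / (2 * μ) = 1 / 2 := by field_simp
    rw [e2, smul_add, smul_smul, smul_smul, mul_div_cancel₀ _ hc.ne', mul_div_cancel₀ _ hc.ne']
    module
  have hsub : (fun x => (1 / 2 : ℝ) • a + x) '' (μ • (SS K 0 + SS K ((1 - δ) • a))) ⊆
      TT K η a := by
    rintro _ ⟨_, ⟨_, ⟨u, hu, v, hv, rfl⟩, rfl⟩, rfl⟩
    have hu1 : u ∈ K := by simpa using hu.1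
    have hu2 : -u ∈ K := by simpa using hu.2
    refine ⟨key u v hu1 hv.1, ?_⟩
    have h3 := key (-u) (-v) hu2 (by rw [← sub_eq_add_neg]; exact hv.2)
    have e3 : a - ((1 / 2 : ℝ) • a + μ • (u + v)) = (1 / 2 : ℝ) • a + μ • (-u + -v) := by
      module
    simp only
    rw [e3]
    exact h3
  have hfin : volume (TT K η a) ≠ ⊤ := by
    refine ne_top_of_le_ne_top (hK.comp.smul (1 - η)).measure_lt_top.ne (measure_mono ?_)
    exact fun t ht => ht.1
  have h4 := measureReal_mono hsub hfin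
  have h5 : volume.real ((fun x => (1 / 2 : ℝ) • a + x) '' (μ • (SS K 0 + SS K ((1 - δ) • a)))) =
      μ ^ m * volume.real (SS K 0 + SS K ((1 - δ) • a)) := by
    rw [measureReal_def, image_add_left, measure_preimage_add, Measure.addHaar_smul,
      Module.finrank_fin_fun, abs_of_pos (by positivity), ENNReal.toReal_mul,
      ENNReal.toReal_ofReal (by positivity)]
    rfl
  rw [h5] at h4
  refine le_trans ?_ h4
  have h6 : Pool.Agent.H404R2.TH.V (SS K 0 + SS K ((1 - δ) • a)) =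
      volume.real (SS K 0 + SS K ((1 - δ) • a)) := rfl
  rw [h6] at hBM
  gcongr

/-- one random translate -/
lemma pick_one {E : Type*} [MeasurableSpace E] (μ : Measure E) {ι : Type*} (Q : Set E)
    (T : ι → Set E) (s : ι → ℝ) (hQm : MeasurableSet Q) (hQ0 : μ Q ≠ 0) (hQt : μ Q ≠ ⊤)
    (hTm : ∀ a, MeasurableSet (T a)) (B : Finset ι) (hTQ : ∀ a ∈ B, T a ⊆ Q)
    (hs : ∀ a ∈ B, s a * μ.real Q ≤ μ.real (T a)) (w : ι → ℝ) (hw : ∀ a ∈ B, 0 ≤ w a) :
    ∃ t ∈ Q, (∑ a ∈ B, w a * (T a)ᶜ.indicator (fun _ => (1:ℝ)) t) ≤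
      ∑ a ∈ B, w a * (1 - s a) := by
  set f : E → ℝ := fun t => ∑ a ∈ B, w a * (T a)ᶜ.indicator (fun _ => (1:ℝ)) t with hf
  have hint1 : ∀ a, IntegrableOn ((T a)ᶜ.indicator (fun _ => (1:ℝ))) Q μ := by
    intro a
    refine IntegrableOn.indicator ?_ (hTm a).compl
    exact integrableOn_const hQt
  have hint : IntegrableOn f Q μ := by
    refine integrable_finsetSum _ fun a _ => ?_
    exact (hint1 a).const_mul (w a)
  obtain ⟨t, ht, hle⟩ := exists_le_setAverage hQ0 hQt hint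
  refine ⟨t, ht, hle.trans ?_⟩
  have hQr : 0 < μ.real Q := by
    rw [measureReal_def]
    exact ENNReal.toReal_pos hQ0 hQt
  rw [setAverage_eq, smul_eq_mul, inv_mul_le_iff₀ hQr]
  have h1 : ∫ x in Q, f x ∂μ = ∑ a ∈ B, w a * μ.real (Q \ T a) := by
    simp only [hf]
    rw [integral_finsetSum _ fun a _ => (hint1 a).const_mul (w a)]
    refine Finset.sum_congr rfl fun a _ => ?_
    rw [integral_const_mul, integral_indicator (hTm a).compl, Measure.restrict_restrict
      (hTm a).compl]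
    simp only [integral_const, smul_eq_mul, mul_one]
    rw [measureReal_restrict_apply_univ, Set.inter_comm, ← Set.sdiff_eq]
  rw [h1, Finset.mul_sum]
  refine Finset.sum_le_sum fun a ha => ?_
  have h2 : μ.real (Q \ T a) = μ.real Q - μ.real (T a) := by
    rw [measureReal_sdiff (hTQ a ha) (hTm a)]
  rw [h2]
  have h3 := hs a ha
  have h4 := hw a ha
  calc w a * (μ.real Q - μ.real (T a)) ≤ w a * (μ.real Q - s a * μ.real Q) := by gcongr
    _ = _ := by ring

/-- `N` random translates -/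
theorem pick {E : Type*} [MeasurableSpace E] (μ : Measure E) {ι : Type*} (Q : Set E)
    (T : ι → Set E) (s : ι → ℝ) (hQm : MeasurableSet Q) (hQ0 : μ Q ≠ 0) (hQt : μ Q ≠ ⊤)
    (hTm : ∀ a, MeasurableSet (T a)) (hs1 : ∀ a, s a ≤ 1) (N : ℕ) :
    ∀ B : Finset ι, (∀ a ∈ B, T a ⊆ Q) → (∀ a ∈ B, s a * μ.real Q ≤ μ.real (T a)) →
    ∃ S : Finset E, S.card ≤ N ∧ (∀ t ∈ S, t ∈ Q) ∧ ∃ B' : Finset ι, B' ⊆ B ∧
      (∀ a ∈ B, a ∉ B' → ∃ t ∈ S, t ∈ T a) ∧
      (B'.card : ℝ) ≤ ∑ a ∈ B, (1 - s a) ^ N := by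
  classical
  induction N with
  | zero =>
    intro B _ _
    exact ⟨∅, by simp, by simp, B, subset_rfl, fun a ha hn => absurd ha hn, by simp⟩
  | succ N ih =>
    intro B hTQ hs
    obtain ⟨t, htQ, ht⟩ := pick_one μ Q T s hQm hQ0 hQt hTm B hTQ hs (fun a => (1 - s a) ^ N)
      (fun a _ => pow_nonneg (by linarith [hs1 a]) _)
    set B₁ := B.filter (fun a => t ∉ T a) with hB₁
    obtain ⟨S, hS1, hS2, B', hB', hcov, hcard⟩ := ih B₁
      (fun a ha => hTQ a (Finset.mem_filter.1 ha).1) (fun a ha => hs a (Finset.mem_filter.1 ha).1)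
    refine ⟨insert t S, (Finset.card_insert_le _ _).trans (by omega), ?_, B',
      hB'.trans (Finset.filter_subset _ _), ?_, ?_⟩
    · intro x hx
      rcases Finset.mem_insert.1 hx with rfl | hx
      · exact htQ
      · exact hS2 x hx
    · intro a ha han
      by_cases hta : t ∈ T a
      · exact ⟨t, Finset.mem_insert_self _ _, hta⟩
      · obtain ⟨x, hx, hxa⟩ := hcov a (Finset.mem_filter.2 ⟨ha, hta⟩) han
        exact ⟨x, Finset.mem_insert_of_mem hx, hxa⟩
    · refine hcard.trans ?_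
      have h1 : ∑ a ∈ B₁, (1 - s a) ^ N =
          ∑ a ∈ B, (1 - s a) ^ N * (T a)ᶜ.indicator (fun _ => (1:ℝ)) t := by
        rw [hB₁, Finset.sum_filter]
        refine Finset.sum_congr rfl fun a _ => ?_
        by_cases hta : t ∈ T a
        · simp [hta]
        · simp [hta]
      rw [h1]
      refine ht.trans (le_of_eq ?_)
      refine Finset.sum_congr rfl fun a _ => ?_
      rw [pow_succ]

/-- A separated net. -/
theorem exists_sep_net {E : Type*} [NormedAddCommGroup E] [NormedSpace ℝ E]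
    (K W : Set E) (hK : IsCompact K) (hW : IsOpen W) (hWc : Convex ℝ W) (hW0 : (0:E) ∈ W)
    (hWs : ∀ x ∈ W, -x ∈ W) :
    ∃ A : Finset E, (∀ a ∈ A, a ∈ K) ∧ (∀ a ∈ A, ∀ b ∈ A, a ≠ b → a - b ∉ W) ∧
      ∀ x ∈ K, ∃ a ∈ A, x - a ∈ W := by
  classical
  let P : Finset E → Prop := fun A => (∀ a ∈ A, a ∈ K) ∧
    (∀ a ∈ A, ∀ b ∈ A, a ≠ b → a - b ∉ W)
  have hWh : (2⁻¹ : ℝ) • W ∈ nhds (0 : E) := by
    refine (hW.smul₀ (by norm_num)).mem_nhds ⟨0, hW0, by simp⟩
  obtain ⟨t, -, ht⟩ := hK.elim_nhds_subcover (fun x => x +ᵥ (2⁻¹ : ℝ) • W) (by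
    intro x _
    have := (hW.smul₀ (show (2⁻¹ : ℝ) ≠ 0 by norm_num)).vadd x
    exact this.mem_nhds ⟨0, ⟨0, hW0, by simp⟩, by simp⟩)
  have hbound : ∀ A, P A → A.card ≤ t.card := by
    intro A hA
    have h1 : ∀ a ∈ A, ∃ x ∈ t, a ∈ x +ᵥ (2⁻¹ : ℝ) • W := by
      intro a ha
      have := ht (hA.1 a ha)
      simpa using this
    choose! f hf using h1
    refine Finset.card_le_card_of_injOn f (fun a ha => (hf a ha).1) ?_
    intro a ha b hb hab
    by_contra hne
    refine hA.2 a ha b hb hne ?_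
    obtain ⟨_, ⟨u, hu, rfl⟩, hau⟩ := (hf a ha).2
    obtain ⟨_, ⟨v, hv, rfl⟩, hbv⟩ := (hf b hb).2
    have h2 : a - b = (2⁻¹ : ℝ) • u + (2⁻¹ : ℝ) • (-v) := by
      rw [← hau, ← hbv, hab]
      simp only [vadd_eq_add]
      module
    rw [h2]
    exact hWc hu (hWs v hv) (by norm_num) (by norm_num) (by norm_num)
  obtain ⟨A, hPA, hmax⟩ : ∃ A, P A ∧ ∀ B, P B → B.card ≤ A.card := by
    let S : Set ℕ := {n | ∃ A, P A ∧ A.card = n}
    have hSne : S.Nonempty := ⟨0, ∅, ⟨by simp, by simp⟩, rfl⟩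
    have hSb : BddAbove S := ⟨t.card, by rintro n ⟨A, hA, rfl⟩; exact hbound A hA⟩
    obtain ⟨A, hA, hcard⟩ := Nat.sSup_mem hSne hSb
    refine ⟨A, hA, fun B hB => ?_⟩
    rw [hcard]
    exact le_csSup hSb ⟨B, hB, rfl⟩
  refine ⟨A, hPA.1, hPA.2, fun x hx => ?_⟩
  by_contra hcon
  push Not at hcon
  have hxA : x ∉ A := by
    intro h
    exact hcon x h (by simpa using hW0)
  have hPx : P (insert x A) := by
    refine ⟨?_, ?_⟩
    · intro a ha
      rcases Finset.mem_insert.1 ha with rfl | ha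
      · exact hx
      · exact hPA.1 a ha
    · intro a ha b hb hab
      rcases Finset.mem_insert.1 ha with rfl | ha'
      · rcases Finset.mem_insert.1 hb with rfl | hb'
        · exact absurd rfl hab
        · exact hcon b hb'
      · rcases Finset.mem_insert.1 hb with rfl | hb'
        · intro hW'
          refine hcon a ha' ?_
          have := hWs _ hW'
          rwa [neg_sub] at this
        · exact hPA.2 a ha' b hb' hab
  have := hmax _ hPx
  rw [Finset.card_insert_of_notMem hxA] at this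
  omega

end Pool.Agent.U958.HC
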