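import Pool.Agent.H801R3.NS.POL
import Pool.Agent.H801R3.NS.GAU
import Pool.Agent.H801R3.NS.RSD
import Pool.Agent.H801R3.NS.SYM

set_option autoImplicit false

/-! helper958, coverings of convex bodies by translates of the interior: support function,
the integral `F(y) = ∫ exp (⟨y,φ⟩ - h_K(φ)) dφ`, and `F(y) |S_y| ≥ 2^m`, where
`S_y = {v : y ± v ∈ K}` (from the symmetric Mahler inequality and Rogers-Shephard). -/

open MeasureTheory Set
open scoped ENNReal Pointwise Matrix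

namespace Pool.Agent.U958.HC

open H801NS

variable {m : ℕ} {K : Set (Fin m → ℝ)}

/-- support function -/
noncomputable def hh (K : Set (Fin m → ℝ)) (φ : Fin m → ℝ) : ℝ := gauge (pol K) φ

/-- the translate `K - y` -/
def tr (K : Set (Fin m → ℝ)) (y : Fin m → ℝ) : Set (Fin m → ℝ) := {x | y + x ∈ K}

/-- the symmetric part of `K` around `y`, moved to the origin -/
def SS (K : Set (Fin m → ℝ)) (y : Fin m → ℝ) : Set (Fin m → ℝ) := {v | y + v ∈ K ∧ y - v ∈ K}

lemma nb_pol (hK : NB K) : NB (pol K) := (t_POL m K hK).1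

lemma gauge_pol_le_iff (hK : NB K) (φ : Fin m → ℝ) (r : ℝ) :
    gauge (pol K) φ ≤ r ↔ ∀ x ∈ K, x ⬝ᵥ φ ≤ r := by
  have hP := nb_pol hK
  have habs : Absorbent ℝ (pol K) := absorbent_nhds_zero (mem_interior_iff_mem_nhds.1 hP.zero)
  constructor
  · intro h x hx
    refine le_of_forall_gt_imp_ge_of_dense ?_
    intro r' hr'
    obtain ⟨b, hb0, hb, hψ⟩ := exists_lt_of_gauge_lt habs (lt_of_le_of_lt h hr')
    obtain ⟨ψ, hψ, rfl⟩ := hψ
    have h1 := hψ x hx
    rw [dotProduct_smul, smul_eq_mul]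
    nlinarith
  · intro h
    have hr : 0 ≤ r := by
      have := h 0 (interior_subset hK.zero)
      simpa using this
    refine le_of_forall_gt_imp_ge_of_dense ?_
    intro r' hr'
    have hr0 : 0 < r' := lt_of_le_of_lt hr hr'
    refine gauge_le_of_mem hr0.le ?_
    refine ⟨r'⁻¹ • φ, ?_, by simp [smul_smul, hr0.ne']⟩
    intro x hx
    rw [dotProduct_smul, smul_eq_mul, inv_mul_le_iff₀ hr0]
    have := h x hx
    linarith

lemma hh_le_iff (hK : NB K) (φ : Fin m → ℝ) (r : ℝ) :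
    hh K φ ≤ r ↔ ∀ x ∈ K, x ⬝ᵥ φ ≤ r := gauge_pol_le_iff hK φ r

lemma dot_le_hh (hK : NB K) {x : Fin m → ℝ} (hx : x ∈ K) (φ : Fin m → ℝ) : x ⬝ᵥ φ ≤ hh K φ :=
  (hh_le_iff hK φ _).1 le_rfl x hx

lemma tr_eq (K : Set (Fin m → ℝ)) (y : Fin m → ℝ) : tr K y = (fun x => y + x) ⁻¹' K := rfl

lemma tr_nb (hK : NB K) {y : Fin m → ℝ} (hy : y ∈ interior K) : NB (tr K y) := by
  have e : tr K y = (Homeomorph.addLeft y) ⁻¹' K := rfl
  refine ⟨?_, ?_, ?_⟩
  · rw [e]
    exact (Homeomorph.isCompact_preimage _).2 hK.comp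
  · exact hK.conv.translate_preimage_right y
  · rw [e, ← Homeomorph.preimage_interior]
    simpa using hy

lemma gauge_tr (hK : NB K) {y : Fin m → ℝ} (hy : y ∈ interior K) (φ : Fin m → ℝ) :
    gauge (pol (tr K y)) φ = hh K φ - y ⬝ᵥ φ := by
  have key : ∀ s, gauge (pol (tr K y)) φ ≤ s ↔ hh K φ - y ⬝ᵥ φ ≤ s := by
    intro s
    rw [gauge_pol_le_iff (tr_nb hK hy), sub_le_iff_le_add, hh_le_iff hK]
    constructor
    · intro h x hx
      have := h (x - y) (by simpa [tr] using hx)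
      rw [sub_dotProduct] at this
      linarith
    · intro h x hx
      have := h (y + x) hx
      rw [add_dotProduct] at this
      linarith
  exact le_antisymm ((key _).2 le_rfl) ((key _).1 le_rfl)

lemma tr_inter (K : Set (Fin m → ℝ)) (y : Fin m → ℝ) : tr K y ∩ - tr K y = SS K y := by
  ext v
  simp [tr, SS, sub_eq_add_neg]

/-- `F(y)` -/
noncomputable def FF (K : Set (Fin m → ℝ)) (y : Fin m → ℝ) : ℝ≥0∞ :=
  ∫⁻ φ, ee (hh K φ - y ⬝ᵥ φ)

lemma FF_eq (hK : NB K) {y : Fin m → ℝ} (hy : y ∈ interior K) :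
    FF K y = m.factorial * volume (pol (tr K y)) := by
  unfold FF
  rw [← t_GAU m _ (nb_pol (tr_nb hK hy))]
  refine lintegral_congr fun φ => ?_
  rw [gauge_tr hK hy]

lemma NB.vol_pos (hK : NB K) : 0 < volume K :=
  lt_of_lt_of_le (isOpen_interior.measure_pos volume ⟨0, hK.zero⟩) (measure_mono interior_subset)

lemma NB.vol_lt_top (hK : NB K) : volume K < ⊤ := hK.comp.measure_lt_top

lemma FF_lt_top (hK : NB K) {y : Fin m → ℝ} (hy : y ∈ interior K) : FF K y < ⊤ := by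
  rw [FF_eq hK hy]
  exact ENNReal.mul_lt_top (by simp) (NB.vol_lt_top (nb_pol (tr_nb hK hy)))

lemma FF_pos (hK : NB K) {y : Fin m → ℝ} (hy : y ∈ interior K) : 0 < FF K y := by
  rw [FF_eq hK hy]
  have := NB.vol_pos (nb_pol (tr_nb hK hy))
  exact ENNReal.mul_pos (by exact_mod_cast m.factorial_ne_zero) this.ne'

/-- the lower bound `F(y) |S_y| ≥ 2^m` -/
theorem FF_ge (hK : NB K) {y : Fin m → ℝ} (hy : y ∈ interior K) :
    2 ^ m ≤ FF K y * volume (SS K y) := by
  have hL := tr_nb hK hy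
  have hT := nb_pol hL
  obtain ⟨-, h2, -, -, -⟩ := t_POL m _ hL
  obtain ⟨-, -, h3, h4, h5⟩ := t_POL m _ hT
  have h6 := t_SYM m _ h3 h4
  rw [h5, h2, tr_inter] at h6
  have h7 := t_RSD t_GAU t_POL m _ hT
  rw [FF_eq hK hy]
  have h8 : ENNReal.ofReal ((4 : ℝ) ^ m / m.factorial) ≤
      2 ^ m * volume (pol (tr K y)) * volume (SS K y) := h6.trans (by gcongr)
  have h9 : (m.factorial : ℝ≥0∞) * ENNReal.ofReal ((4 : ℝ) ^ m / m.factorial) = 2 ^ m * 2 ^ m := by
    rw [← ENNReal.ofReal_natCast, ← ENNReal.ofReal_mul (by positivity),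
      mul_div_cancel₀ _ (by positivity)]
    rw [ENNReal.ofReal_pow (by norm_num), ← mul_pow]
    norm_num
  have h10 : (2 : ℝ≥0∞) ^ m * 2 ^ m ≤
      2 ^ m * (m.factorial * volume (pol (tr K y)) * volume (SS K y)) := by
    rw [← h9]
    calc (m.factorial : ℝ≥0∞) * ENNReal.ofReal ((4 : ℝ) ^ m / m.factorial)
        ≤ m.factorial * (2 ^ m * volume (pol (tr K y)) * volume (SS K y)) := by gcongr
      _ = _ := by ring
  exact (ENNReal.mul_le_mul_iff_right (by simp) (by simp)).1 h10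

end Pool.Agent.U958.HC
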