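import Pool.Agent.U958.HC.Two

set_option autoImplicit false

/-! helper958: the two-phase covering theorem in coordinates. -/

open MeasureTheory Set
open scoped ENNReal Pointwise Matrix Topology

namespace Pool.Agent.U958.HC

open H801NS

variable {m : ℕ} {K : Set (Fin m → ℝ)}

lemma two_pow_le {t : ℝ} (h0 : 0 ≤ t) (h1 : t ≤ 1) : Real.exp (t * Real.log 2) ≤ 1 + t := by
  have h := convexOn_exp.2 (mem_univ (0:ℝ)) (mem_univ (Real.log 2)) (show 0 ≤ 1 - t by linarith) h0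
    (by ring)
  simp only [smul_eq_mul, mul_zero, zero_add, Real.exp_zero] at h
  rw [Real.exp_log (by norm_num)] at h
  linarith

lemma exp78 : (2221 : ℝ) ≤ Real.exp 7.8 := by
  have h1 : (2.7182818283 : ℝ) < Real.exp 1 := Real.exp_one_gt_d9
  have h4 : Real.exp 7.8 = Real.exp 1 ^ 7 * Real.exp 0.8 := by
    rw [← Real.exp_nat_mul, ← Real.exp_add]
    congr 1
    norm_num
  have h5 : (1096 : ℝ) ≤ Real.exp 1 ^ 7 := by
    calc (1096 : ℝ) ≤ 2.7182818283 ^ 7 := by norm_num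
      _ ≤ _ := by gcongr
  have h6 := Real.quadratic_le_exp_of_nonneg (show (0:ℝ) ≤ 0.8 by norm_num)
  rw [h4]
  nlinarith

lemma log_bound {L : ℝ} (hL : 0 ≤ L) :
    Real.log (225 * Real.pi ^ 2 * (1 + L) ^ 2) ≤ 7.8 + 2 * Real.log (1 + L) := by
  have hpi := Real.pi_pos
  have h2 : Real.pi < 3.1416 := Real.pi_lt_d4
  rw [Real.log_mul (by positivity) (by positivity), Real.log_pow]
  have h3 : Real.log (225 * Real.pi ^ 2) ≤ 7.8 := by
    rw [Real.log_le_iff_le_exp (by positivity)]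
    refine le_trans ?_ exp78
    nlinarith
  push_cast
  linarith

theorem cover_two (hK : NB K) (hm : 0 < m)
    (hL : 3 / 2 * (1 + Real.log (volume.real K / volume.real (SS K 0))) ≤ m) :
    ∃ T : Finset (Fin m → ℝ), K ⊆ ⋃ t ∈ T, (fun x => t + x) '' interior K ∧
      (T.card : ℝ) ≤ m * 2 ^ m *
        (11 + 3 * Real.log (1 + Real.log (volume.real K / volume.real (SS K 0)))) := by
  classical
  have hS0 := SS_nb hK hK.zero
  obtain ⟨v0, hv0⟩ : ∃ v0, v0 = volume.real (SS K 0) := ⟨_, rfl⟩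
  obtain ⟨v, hv⟩ : ∃ v, v = volume.real K := ⟨_, rfl⟩
  have hv0p : 0 < v0 := by rw [hv0]; exact NB.vr_pos hS0
  have hvp : 0 < v := by rw [hv]; exact NB.vr_pos hK
  have hv0v : v0 ≤ v := by
    rw [hv0, hv]
    exact measureReal_mono (SS_zero_subset K) (NB.vol_lt_top hK).ne
  rw [← hv0, ← hv] at hL ⊢
  obtain ⟨L, hLd⟩ : ∃ L, L = Real.log (v / v0) := ⟨_, rfl⟩
  rw [← hLd] at hL ⊢
  have hL0 : 0 ≤ L := by
    rw [hLd]
    exact Real.log_nonneg ((one_le_div hv0p).2 hv0v)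
  have hexpL : Real.exp L = v / v0 := by rw [hLd, Real.exp_log (by positivity)]
  have hm2 : (2 : ℝ) ≤ m := by
    have : 1 < m := by
      by_contra hcon
      have : (m : ℝ) ≤ 1 := by exact_mod_cast not_lt.1 hcon
      nlinarith
    exact_mod_cast this
  -- parameters
  obtain ⟨δ, hδ⟩ : ∃ δ : ℝ, δ = 1 / (5 * m) := ⟨_, rfl⟩
  have hδ0 : 0 < δ := by rw [hδ]; positivity
  have hδm : 5 * δ * m = 1 := by rw [hδ]; field_simp
  have hδ10 : δ ≤ 1 / 10 := by nlinarith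
  obtain ⟨η, hη⟩ : ∃ η : ℝ, η = 2 * (δ / 3) / (1 - δ) := ⟨_, rfl⟩
  have hη0 : 0 < η := by rw [hη]; exact div_pos (by positivity) (by linarith)
  have hη6 : η ≤ 1 / 6 := by
    rw [hη, div_le_iff₀ (by linarith)]
    linarith
  have hc : (0 : ℝ) < 1 - η := by linarith
  obtain ⟨ρ, hρ⟩ : ∃ ρ : ℝ, ρ = (1 - 2 * η) / (2 * (1 + δ)) / (1 - η) := ⟨_, rfl⟩
  have hρ0 : 0 < ρ := by
    rw [hρ]
    exact div_pos (div_pos (by linarith) (by linarith)) hc
  obtain ⟨q, hq⟩ : ∃ q : ℝ, q = 2 * ρ := ⟨_, rfl⟩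
  have hq0 : 0 < q := by rw [hq]; positivity
  have h35 : (0:ℝ) < 3 - 5 * δ := by linarith
  have h1δ : (0:ℝ) < 1 - δ := by linarith
  have e1 : 1 - η = (3 - 5 * δ) / (3 * (1 - δ)) := by
    rw [hη]
    field_simp
    ring
  have hq2 : q = (3 - 7 * δ) / ((3 - 5 * δ) * (1 + δ)) := by
    have e2 : 1 - 2 * η = (3 - 7 * δ) / (3 * (1 - δ)) := by
      rw [hη]
      field_simp
      ring
    rw [hq, hρ, e1, e2]
    field_simp
  have hqm : 2 / 3 ≤ q ^ m := by
    have h3 : m * (1 - q) ≤ 1 / 3 := by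
      have e3 : 1 - q = 5 * δ * ((1 - δ) / ((3 - 5 * δ) * (1 + δ))) := by
        have hne : (3 - 5 * δ) * (1 + δ) ≠ 0 := by positivity
        rw [hq2, mul_div_assoc', eq_div_iff hne, sub_mul, div_mul_cancel₀ _ hne]
        ring
      have e4 : m * (1 - q) = (1 - δ) / ((3 - 5 * δ) * (1 + δ)) := by
        rw [e3]
        calc (m : ℝ) * (5 * δ * ((1 - δ) / ((3 - 5 * δ) * (1 + δ))))
            = (5 * δ * m) * ((1 - δ) / ((3 - 5 * δ) * (1 + δ))) := by ring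
          _ = _ := by rw [hδm, one_mul]
      rw [e4, div_le_div_iff₀ (by positivity) (by norm_num)]
      nlinarith
    have h4 := one_add_mul_le_pow (show (-2 : ℝ) ≤ q - 1 by linarith) m
    rw [add_sub_cancel] at h4
    linarith
  -- number of random translates
  obtain ⟨N, hN⟩ : ∃ N : ℕ, N = ⌈3 / 2 * (m : ℝ) * 2 ^ m⌉₊ := ⟨_, rfl⟩
  have hNge : 3 / 2 * (m : ℝ) * 2 ^ m ≤ N := by
    rw [hN]
    exact Nat.le_ceil _
  have hNle : (N : ℝ) ≤ 3 / 2 * (m : ℝ) * 2 ^ m + 1 := by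
    rw [hN]
    exact (Nat.ceil_lt_add_one (by positivity)).le
  obtain ⟨M, hM⟩ : ∃ M : ℝ, M = N * (ρ ^ m * (v0 / v)) := ⟨_, rfl⟩
  have hMge : m * (v0 / v) ≤ M := by
    have h1 : (3 / 2 * (m : ℝ) * 2 ^ m) * (ρ ^ m * (v0 / v)) ≤ M := by
      rw [hM]
      gcongr
    have h2 : (3 / 2 * (m : ℝ) * 2 ^ m) * (ρ ^ m * (v0 / v)) = 3 / 2 * q ^ m * (m * (v0 / v)) := by
      rw [hq, mul_pow]
      ring
    rw [h2] at h1
    have h3 : 0 < m * (v0 / v) := by positivity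
    have h4 : 1 * (m * (v0 / v)) ≤ 3 / 2 * q ^ m * (m * (v0 / v)) := by
      gcongr
      linarith
    linarith
  have hM0 : 0 < M := lt_of_lt_of_le (by positivity) hMge
  obtain ⟨τ₀, hτ₀⟩ : ∃ τ₀ : ℝ, τ₀ = 3 / 2 * (1 + L) / m := ⟨_, rfl⟩
  have hτ₀p : 0 < τ₀ := by rw [hτ₀]; positivity
  have hτ₀1 : τ₀ ≤ 1 := by
    rw [hτ₀, div_le_one (by positivity)]
    exact hL
  have hτm : m * τ₀ = 3 / 2 * (1 + L) := by
    rw [hτ₀]
    field_simp
  have hcond : 2 ≤ M * τ₀ * (1 + τ₀) ^ (m - 1) := by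
    have h1 : Real.exp 1 * (v / v0) ≤ (1 + τ₀) ^ m := by
      have h2 : Real.exp (τ₀ * Real.log 2) ^ m ≤ (1 + τ₀) ^ m := by
        have := two_pow_le hτ₀p.le hτ₀1
        gcongr
      refine le_trans ?_ h2
      rw [← Real.exp_nat_mul, ← hexpL, ← Real.exp_add]
      apply Real.exp_le_exp.2
      have h3 := Real.log_two_gt_d9
      have h4 : (m : ℝ) * (τ₀ * Real.log 2) = (3 / 2 * Real.log 2) * (1 + L) := by
        rw [← mul_assoc, hτm]
        ring
      rw [h4]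
      have h5 : 1 ≤ 3 / 2 * Real.log 2 := by linarith
      nlinarith
    have h6 : (1 + τ₀) ^ m = (1 + τ₀) ^ (m - 1) * (1 + τ₀) := by
      rw [← pow_succ]
      congr 1
      omega
    have h7 : (1 + τ₀) ^ m ≤ (1 + τ₀) ^ (m - 1) * 2 := by
      rw [h6]
      gcongr
      linarith
    have h8 : m * (v0 / v) * τ₀ ≤ M * τ₀ := by gcongr
    have h9 : m * (v0 / v) * τ₀ = 3 / 2 * (1 + L) * (v0 / v) := by
      rw [← hτm]
      ring
    have h10 : (3 / 2) * (v0 / v) ≤ M * τ₀ := by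
      rw [h9] at h8
      have h10a : 0 ≤ L * (v0 / v) := by positivity
      have h10b : 3 / 2 * (1 + L) * (v0 / v) = 3 / 2 * (v0 / v) + 3 / 2 * (L * (v0 / v)) := by
        ring
      linarith
    have h11 : Real.exp 1 * (v / v0) / 2 ≤ (1 + τ₀) ^ (m - 1) := by linarith
    have h12 : (2.7182818283 : ℝ) < Real.exp 1 := Real.exp_one_gt_d9
    calc (2 : ℝ) ≤ 3 / 4 * Real.exp 1 := by linarith
      _ = (3 / 2) * (v0 / v) * (Real.exp 1 * (v / v0) / 2) := by field_simp; ring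
      _ ≤ M * τ₀ * (1 + τ₀) ^ (m - 1) := by gcongr
  obtain ⟨S, B, hS, hBK, hBcard, hcov⟩ := phase_one hK hm δ η hδ hη N M
    (by rw [hM, hρ, hv0, hv]) (τ₀ ^ (2 * m)) (by positivity)
    (fun τ hτ => exp_share_le' hM0 hτ hτ₀p hm hcond)
  -- second phase
  obtain ⟨F, hF⟩ : ∃ F : ℝ, F = (1 + 1 / (1 - η)) ^ m := ⟨_, rfl⟩
  have hF2 : 2 ^ m ≤ F := by
    rw [hF]
    have : 1 ≤ 1 / (1 - η) := by
      rw [one_le_div hc]
      linarith
    gcongr
    linarith
  have hFle : F ≤ 1.09 * 2 ^ m := by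
    have e5 : 1 + 1 / (1 - η) = (1 + δ / (3 - 5 * δ)) * 2 := by
      rw [e1]
      field_simp
      ring
    rw [hF, e5, mul_pow]
    gcongr
    have h1 : 1 + δ / (3 - 5 * δ) ≤ Real.exp (δ / (3 - 5 * δ)) := by
      have := Real.add_one_le_exp (δ / (3 - 5 * δ))
      linarith
    have h2 : (1 + δ / (3 - 5 * δ)) ^ m ≤ Real.exp (m * (δ / (3 - 5 * δ))) := by
      rw [Real.exp_nat_mul]
      have : 0 ≤ 1 + δ / (3 - 5 * δ) := by positivity
      gcongr
    have h3 : (m : ℝ) * (δ / (3 - 5 * δ)) ≤ 0.08 := by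
      have e6 : (m : ℝ) * (δ / (3 - 5 * δ)) = (5 * δ * m) / (5 * (3 - 5 * δ)) := by
        field_simp
      rw [e6, hδm, div_le_iff₀ (by positivity)]
      linarith
    have h4 : Real.exp 0.08 ≤ 1.09 := by
      have h5 := Real.add_one_le_exp (-(0.08:ℝ))
      rw [Real.exp_neg] at h5
      have h6 := Real.exp_pos (0.08:ℝ)
      have h7 : (0.92:ℝ) ≤ (Real.exp 0.08)⁻¹ := by linarith
      rw [le_inv_comm₀ (by norm_num) h6] at h7
      refine h7.trans (by norm_num)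
    exact h2.trans ((Real.exp_le_exp.2 h3).trans h4)
  have hF0 : 0 < F := lt_of_lt_of_le (by positivity) hF2
  obtain ⟨R, hR⟩ : ∃ R : ℝ, R = τ₀ ^ (2 * m) * (8 * Real.pi ^ 2 / δ ^ 2) ^ m := ⟨_, rfl⟩
  have hRe : R = (450 * Real.pi ^ 2 * (1 + L) ^ 2) ^ m := by
    rw [hR, pow_mul, ← mul_pow, hτ₀, hδ]
    congr 1
    field_simp
    ring
  have hRp : 0 < R := by rw [hRe]; positivity
  have hRF : R / F ≤ (225 * Real.pi ^ 2 * (1 + L) ^ 2) ^ m := by
    rw [div_le_iff₀ hF0]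
    calc R = (225 * Real.pi ^ 2 * (1 + L) ^ 2) ^ m * 2 ^ m := by
          rw [hRe, ← mul_pow]
          congr 1
          ring
      _ ≤ _ := by gcongr
  have hone : (1:ℝ) ≤ 225 * Real.pi ^ 2 * (1 + L) ^ 2 := by
    have h3 := Real.pi_gt_three
    have h4 : (1:ℝ) ≤ (1 + L) ^ 2 := by nlinarith
    nlinarith
  have hlog : Real.log (max R F / F) ≤ m * (7.8 + 2 * Real.log (1 + L)) := by
    have h1 : max R F / F ≤ (225 * Real.pi ^ 2 * (1 + L) ^ 2) ^ m := by
      rcases le_total R F with h | h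
      · rw [max_eq_right h, div_self hF0.ne']
        exact one_le_pow₀ hone
      · rw [max_eq_left h]
        exact hRF
    have h2 : 0 < max R F / F := div_pos (lt_max_of_lt_left hRp) hF0
    calc Real.log (max R F / F) ≤ Real.log ((225 * Real.pi ^ 2 * (1 + L) ^ 2) ^ m) :=
          Real.log_le_log h2 h1
      _ = m * Real.log (225 * Real.pi ^ 2 * (1 + L) ^ 2) := Real.log_pow _ _
      _ ≤ _ := by
        have := log_bound hL0
        gcongr
  obtain ⟨T₂, hT₂, hcov₂⟩ := Pool.Agent.N605.RB.greedy_log K hK.conv hK.comp ⟨0, hK.zero⟩ (1 - η)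
    hc B hBK F (max R F) (by rw [hF, Module.finrank_fin_fun]) (le_max_right _ _)
    (by
      refine le_trans ?_ (le_max_left _ _)
      rw [hR]
      exact hBcard)
  refine ⟨S ∪ T₂, ?_, ?_⟩
  · intro x hx
    obtain ⟨a, ha, w, hw, hxa⟩ := hcov x hx
    have hat : ∃ t ∈ S ∪ T₂, a - t ∈ (1 - η) • K := by
      rcases ha with ha | ⟨t, ht, hat⟩
      · obtain ⟨t, ht, hat⟩ := hcov₂ a ha
        exact ⟨t, Finset.mem_union_right _ ht, hat⟩
      · exact ⟨t, Finset.mem_union_left _ ht, hat⟩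
    obtain ⟨t, ht, k, hk, hak⟩ := hat
    rw [mem_iUnion₂]
    refine ⟨t, ht, x - t, ?_, by simp⟩
    simp only at hxa hak
    have hw' : w ∈ interior K := interior_mono (SS_zero_subset K) hw
    have h1 := hK.conv.combo_interior_closure_mem_interior hw' (subset_closure hk)
      hη0 hc.le (by ring)
    have e1 : x - t = η • w + (1 - η) • k := by
      rw [hxa, hak]
      abel
    rw [e1]
    exact h1
  · have h1 : ((S ∪ T₂).card : ℝ) ≤ S.card + T₂.card := by exact_mod_cast Finset.card_union_le _ _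
    have h2 : (S.card : ℝ) ≤ N := by exact_mod_cast hS
    have hlogL : 0 ≤ Real.log (1 + L) := Real.log_nonneg (by linarith)
    have h3 : F * Real.log (max R F / F) ≤ 1.09 * 2 ^ m * (m * (7.8 + 2 * Real.log (1 + L))) := by
      have h4 : 0 ≤ m * (7.8 + 2 * Real.log (1 + L)) := by positivity
      calc F * Real.log (max R F / F) ≤ F * (m * (7.8 + 2 * Real.log (1 + L))) := by gcongr
        _ ≤ _ := by gcongr
    have h5 : (4:ℝ) ≤ 2 ^ m := by
      have hm2' : 2 ≤ m := by exact_mod_cast hm2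
      calc (4:ℝ) = 2 ^ 2 := by norm_num
        _ ≤ 2 ^ m := pow_le_pow_right₀ (by norm_num) hm2'
    have h6 : (8:ℝ) ≤ m * 2 ^ m := by nlinarith
    have h7 : 2 * (2:ℝ) ^ m ≤ m * 2 ^ m := by gcongr
    have h8 : 0 ≤ m * 2 ^ m * Real.log (1 + L) := by positivity
    have h9 : 1.09 * 2 ^ m * (m * (7.8 + 2 * Real.log (1 + L))) =
        8.502 * (m * 2 ^ m) + 2.18 * (m * 2 ^ m * Real.log (1 + L)) := by ring
    have h10 : m * 2 ^ m * (11 + 3 * Real.log (1 + L)) =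
        11 * (m * 2 ^ m) + 3 * (m * 2 ^ m * Real.log (1 + L)) := by ring
    rw [h10]
    have h11 : 3 / 2 * (m:ℝ) * 2 ^ m = 3 / 2 * (m * 2 ^ m) := by ring
    rw [h11] at hNle
    linarith

end Pool.Agent.U958.HC
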