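import Pool.Agent.U958.HC.Main

set_option autoImplicit false

/-! helper958: transfer to `EuclideanSpace` and arbitrary centre. -/

open MeasureTheory Set
open scoped ENNReal Pointwise Matrix Topology

namespace Pool.Agent.U958.HC

open H801NS

variable {d : ℕ}

/-- coordinates around `c` -/
def KK (K : Set (EuclideanSpace ℝ (Fin d))) (c : EuclideanSpace ℝ (Fin d)) :
    Set (Fin d → ℝ) := {x | c + (WithLp.toLp 2 x : EuclideanSpace ℝ (Fin d)) ∈ K}

/-- the coordinate homeomorphism -/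
noncomputable def hom (c : EuclideanSpace ℝ (Fin d)) :
    (Fin d → ℝ) ≃ₜ EuclideanSpace ℝ (Fin d) :=
  (EuclideanSpace.equiv (Fin d) ℝ).symm.toHomeomorph.trans (Homeomorph.addLeft c)

lemma hom_apply (c : EuclideanSpace ℝ (Fin d)) (x : Fin d → ℝ) :
    hom c x = c + (WithLp.toLp 2 x : EuclideanSpace ℝ (Fin d)) := rfl

lemma KK_eq (K : Set (EuclideanSpace ℝ (Fin d))) (c : EuclideanSpace ℝ (Fin d)) :
    KK K c = hom c ⁻¹' K := rfl

lemma vol_pre (c : EuclideanSpace ℝ (Fin d)) {A : Set (EuclideanSpace ℝ (Fin d))}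
    (hA : MeasurableSet A) : volume (hom c ⁻¹' A) = volume A := by
  have e : hom c ⁻¹' A = (WithLp.toLp 2) ⁻¹' ((fun x => c + x) ⁻¹' A) := rfl
  rw [e, (PiLp.volume_preserving_toLp (Fin d)).measure_preimage
    ((measurable_const_add c) hA).nullMeasurableSet, measure_preimage_add]

lemma KK_conv {K : Set (EuclideanSpace ℝ (Fin d))} (hK : Convex ℝ K)
    (c : EuclideanSpace ℝ (Fin d)) : Convex ℝ (KK K c) := by
  intro x hx y hy a b ha hb hab
  have h := hK hx hy ha hb hab
  show c + (WithLp.toLp 2 (a • x + b • y) : EuclideanSpace ℝ (Fin d)) ∈ K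
  have e : c + (WithLp.toLp 2 (a • x + b • y) : EuclideanSpace ℝ (Fin d)) =
      a • (c + WithLp.toLp 2 x) + b • (c + WithLp.toLp 2 y) := by
    rw [WithLp.toLp_add, WithLp.toLp_smul, WithLp.toLp_smul, smul_add, smul_add]
    have : c = a • c + b • c := by rw [← add_smul, hab, one_smul]
    conv_lhs => rw [this]
    abel
  rw [e]
  exact h

lemma zero_mem_interior_of_symm {S : Set (Fin d → ℝ)} (hS : Convex ℝ S)
    (hs : ∀ v ∈ S, -v ∈ S) (hv : volume S ≠ 0) : (0 : Fin d → ℝ) ∈ interior S := by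
  have hne : (interior S).Nonempty := by
    by_contra hcon
    rw [not_nonempty_iff_eq_empty] at hcon
    have h1 : volume (frontier S) = 0 := hS.addHaar_frontier volume
    refine hv (measure_mono_null ?_ h1)
    rw [frontier, hcon, sdiff_empty]
    exact subset_closure
  obtain ⟨x, hx⟩ := hne
  have hneg : - interior S ⊆ interior S := by
    refine interior_maximal ?_ isOpen_interior.neg
    intro y hy
    have := hs _ (interior_subset hy)
    simpa using this
  have hnx : -x ∈ interior S := hneg (by simpa using hx)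
  have h := hS.interior hx hnx (show (0:ℝ) ≤ 1 / 2 by norm_num) (show (0:ℝ) ≤ 1 / 2 by norm_num)
    (by norm_num)
  convert h using 1
  module

lemma KK_nb {K : Set (EuclideanSpace ℝ (Fin d))} (hK : Convex ℝ K) (hKc : IsCompact K)
    {c : EuclideanSpace ℝ (Fin d)}
    (hc : 0 < volume.real (K ∩ {x | (2 : ℝ) • c - x ∈ K})) :
    NB (KK K c) ∧ volume.real (KK K c) = volume.real K ∧
      volume.real (SS (KK K c) 0) = volume.real (K ∩ {x | (2 : ℝ) • c - x ∈ K}) := by
  have hm2 : MeasurableSet (K ∩ {x | (2 : ℝ) • c - x ∈ K}) := by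
    refine hKc.measurableSet.inter ?_
    have : IsClosed {x : EuclideanSpace ℝ (Fin d) | (2 : ℝ) • c - x ∈ K} :=
      hKc.isClosed.preimage (by fun_prop)
    exact this.measurableSet
  have e : SS (KK K c) 0 = hom c ⁻¹' (K ∩ {x | (2 : ℝ) • c - x ∈ K}) := by
    ext v
    have e1 : (2 : ℝ) • c - (c + (WithLp.toLp 2 v : EuclideanSpace ℝ (Fin d))) =
        c + (WithLp.toLp 2 (0 - v) : EuclideanSpace ℝ (Fin d)) := by
      rw [WithLp.toLp_sub, WithLp.toLp_zero]
      module
    constructor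
    · rintro ⟨h1, h2⟩
      rw [zero_add] at h1
      refine ⟨h1, ?_⟩
      show (2 : ℝ) • c - hom c v ∈ K
      rw [hom_apply, e1]
      exact h2
    · rintro ⟨h1, h2⟩
      have h2' : (2 : ℝ) • c - hom c v ∈ K := h2
      rw [hom_apply, e1] at h2'
      refine ⟨?_, h2'⟩
      rw [zero_add]
      exact h1
  have hv1 : volume.real (KK K c) = volume.real K := by
    rw [measureReal_def, measureReal_def, KK_eq, vol_pre c hKc.measurableSet]
  have hv2 : volume.real (SS (KK K c) 0) = volume.real (K ∩ {x | (2 : ℝ) • c - x ∈ K}) := by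
    rw [measureReal_def, measureReal_def, e, vol_pre c hm2]
  have hconv := KK_conv hK c
  have hcomp : IsCompact (KK K c) := by
    rw [KK_eq]
    exact (Homeomorph.isCompact_preimage _).2 hKc
  refine ⟨⟨hcomp, hconv, ?_⟩, hv1, hv2⟩
  have hSconv : Convex ℝ (SS (KK K c) 0) := by
    rw [← tr_inter]
    have h1 : Convex ℝ (tr (KK K c) 0) := hconv.translate_preimage_right 0
    exact h1.inter h1.neg
  have h0 := zero_mem_interior_of_symm hSconv (SS_symm _ 0) (by
    intro h
    rw [← hv2, measureReal_def, h] at hc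
    simp at hc)
  exact interior_mono (SS_zero_subset _) h0

lemma cover_back {K : Set (EuclideanSpace ℝ (Fin d))} {c : EuclideanSpace ℝ (Fin d)}
    (T : Finset (Fin d → ℝ))
    (hT : KK K c ⊆ ⋃ t ∈ T, (fun x => t + x) '' interior (KK K c)) :
    ∃ T' : Finset (EuclideanSpace ℝ (Fin d)), K ⊆ ⋃ t ∈ T', (fun x => t + x) '' interior K ∧
      T'.card ≤ T.card := by
  classical
  refine ⟨T.image (fun t => (WithLp.toLp 2 t : EuclideanSpace ℝ (Fin d))), ?_,
    Finset.card_image_le⟩
  intro x hx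
  have h1 : (hom c).symm x ∈ KK K c := by
    rw [KK_eq]
    simpa using hx
  have h2 := hT h1
  rw [mem_iUnion₂] at h2
  obtain ⟨t, ht, w, hw, he⟩ := h2
  rw [mem_iUnion₂]
  refine ⟨WithLp.toLp 2 t, Finset.mem_image_of_mem _ ht, hom c w, ?_, ?_⟩
  · rw [KK_eq, ← Homeomorph.preimage_interior] at hw
    exact hw
  · simp only at he ⊢
    have h3 : hom c (t + w) = x := by
      rw [he]
      simp
    rw [← h3, hom_apply, hom_apply, WithLp.toLp_add]
    abel

theorem cover_ratio (hd : 1 ≤ d) {K : Set (EuclideanSpace ℝ (Fin d))} (hK : Convex ℝ K)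
    (hKc : IsCompact K) {c : EuclideanSpace ℝ (Fin d)}
    (hc : 0 < volume.real (K ∩ {x | (2 : ℝ) • c - x ∈ K})) :
    ∃ T : Finset (EuclideanSpace ℝ (Fin d)), K ⊆ ⋃ t ∈ T, (fun x => t + x) '' interior K ∧
      (T.card : ℝ) ≤ 7 * d * 2 ^ d *
        (volume.real K / volume.real (K ∩ {x | (2 : ℝ) • c - x ∈ K})) := by
  obtain ⟨hnb, e1, e2⟩ := KK_nb hK hKc hc
  obtain ⟨T, hT, hcard⟩ := cover_nb hnb hd
  obtain ⟨T', hT', hcard'⟩ := cover_back T hT
  refine ⟨T', hT', ?_⟩
  rw [e1, e2] at hcard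
  exact le_trans (by exact_mod_cast hcard') hcard

end Pool.Agent.U958.HC
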