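import Pool.Agent.U958.HC.Transfer
import Pool.Agent.N605.RB.Num

set_option autoImplicit false

/-! helper958: the covering theorem for bodies of small symmetry: random translates first, then the
greedy procedure for the corners. -/

open MeasureTheory Set
open scoped ENNReal Pointwise Matrix Topology

namespace Pool.Agent.U958.HC

open H801NS

variable {m : ℕ} {K : Set (Fin m → ℝ)}

lemma exp_share_le' {M τ τ₀ : ℝ} (hM : 0 < M) (hτ : 0 < τ) (hτ₀ : 0 < τ₀) {m : ℕ} (hm : 0 < m)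
    (h : 2 ≤ M * τ₀ * (1 + τ₀) ^ (m - 1)) :
    Real.exp (-(M * (1 + τ) ^ m)) ≤ τ₀ ^ (2 * m) * ((τ ^ m)⁻¹) ^ 2 := by
  have e0 : ((τ ^ m)⁻¹) ^ 2 = (τ ^ (2 * m))⁻¹ := by
    rw [inv_pow, ← pow_mul, mul_comm m 2]
  rw [e0, ← div_eq_mul_inv, le_div_iff₀ (by positivity)]
  rcases le_total τ τ₀ with hle | hle
  · calc Real.exp (-(M * (1 + τ) ^ m)) * τ ^ (2 * m) ≤ 1 * τ₀ ^ (2 * m) := by
          gcongr
          rw [Real.exp_le_one_iff]
          have : 0 ≤ M * (1 + τ) ^ m := by positivity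
          linarith
      _ = _ := one_mul _
  · have h1 : τ / τ₀ ≤ Real.exp ((τ - τ₀) / τ₀) := by
      have := Real.add_one_le_exp ((τ - τ₀) / τ₀)
      have e : (τ - τ₀) / τ₀ + 1 = τ / τ₀ := by
        field_simp
        ring
      linarith
    have h2 : τ ^ (2 * m) ≤ τ₀ ^ (2 * m) * Real.exp (2 * m * ((τ - τ₀) / τ₀)) := by
      have h3 : (τ / τ₀) ^ (2 * m) ≤ Real.exp ((τ - τ₀) / τ₀) ^ (2 * m) := by gcongr
      rw [div_pow, div_le_iff₀ (by positivity), ← Real.exp_nat_mul] at h3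
      push_cast at h3
      linarith
    -- Bernoulli
    have h4 : (1 + τ₀) ^ m + m * (1 + τ₀) ^ (m - 1) * (τ - τ₀) ≤ (1 + τ) ^ m := by
      have h5 := one_add_mul_le_pow (show (-2 : ℝ) ≤ (τ - τ₀) / (1 + τ₀) by
        have : 0 ≤ (τ - τ₀) / (1 + τ₀) := div_nonneg (by linarith) (by linarith)
        linarith) m
      have h6 : 1 + (τ - τ₀) / (1 + τ₀) = (1 + τ) / (1 + τ₀) := by
        field_simp
        ring
      rw [h6, div_pow, le_div_iff₀ (by positivity)] at h5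
      have h7 : (1 + τ₀) ^ m = (1 + τ₀) ^ (m - 1) * (1 + τ₀) := by
        rw [← pow_succ]
        congr 1
        omega
      calc (1 + τ₀) ^ m + m * (1 + τ₀) ^ (m - 1) * (τ - τ₀)
          = (1 + m * ((τ - τ₀) / (1 + τ₀))) * (1 + τ₀) ^ m := by
            rw [add_mul, one_mul, h7]
            field_simp
        _ ≤ _ := h5
    have h8 : 2 * m * ((τ - τ₀) / τ₀) ≤ M * (1 + τ) ^ m := by
      have h9 : 2 * m * ((τ - τ₀) / τ₀) ≤ M * (m * (1 + τ₀) ^ (m - 1) * (τ - τ₀)) := by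
        have h10 : 2 * m * ((τ - τ₀) / τ₀) = 2 / τ₀ * (m * (τ - τ₀)) := by
          field_simp
        have h11 : 2 / τ₀ ≤ M * (1 + τ₀) ^ (m - 1) := by
          rw [div_le_iff₀ hτ₀]
          linarith
        rw [h10]
        have h12 : 0 ≤ (m : ℝ) * (τ - τ₀) := mul_nonneg (by positivity) (by linarith)
        calc 2 / τ₀ * (m * (τ - τ₀)) ≤ M * (1 + τ₀) ^ (m - 1) * (m * (τ - τ₀)) := by gcongr
          _ = _ := by ring
      refine h9.trans ?_
      gcongr
      have : 0 ≤ (1 + τ₀) ^ m := by positivity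
      linarith
    calc Real.exp (-(M * (1 + τ) ^ m)) * τ ^ (2 * m)
        ≤ Real.exp (-(M * (1 + τ) ^ m)) * (τ₀ ^ (2 * m) * Real.exp (2 * m * ((τ - τ₀) / τ₀))) := by
          gcongr
      _ = τ₀ ^ (2 * m) * (Real.exp (-(M * (1 + τ) ^ m)) * Real.exp (2 * m * ((τ - τ₀) / τ₀))) := by
          ring
      _ ≤ τ₀ ^ (2 * m) * 1 := by
          gcongr
          rw [← Real.exp_add, Real.exp_le_one_iff]
          linarith
      _ = _ := mul_one _

/-- Phase one, with parameters. `δ = 1/(5m)`, `η = 2(δ/3)/(1-δ)`. -/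
theorem phase_one (hK : NB K) (hm : 0 < m) (δ η : ℝ) (hδ : δ = 1 / (5 * m))
    (hη : η = 2 * (δ / 3) / (1 - δ)) (N : ℕ) (M : ℝ)
    (hM : M = N * (((1 - 2 * η) / (2 * (1 + δ)) / (1 - η)) ^ m *
      (volume.real (SS K 0) / volume.real K))) (C : ℝ) (hC : 0 ≤ C)
    (hexp : ∀ τ : ℝ, 0 < τ → Real.exp (-(M * (1 + τ) ^ m)) ≤ C * ((τ ^ m)⁻¹) ^ 2) :
    ∃ S B : Finset (Fin m → ℝ), S.card ≤ N ∧ (∀ b ∈ B, b ∈ K) ∧
      (B.card : ℝ) ≤ C * (8 * Real.pi ^ 2 / δ ^ 2) ^ m ∧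
      ∀ x ∈ K, ∃ a, (a ∈ B ∨ ∃ t ∈ S, a - t ∈ (1 - η) • K) ∧
        x - a ∈ η • interior (SS K 0) := by
  classical
  have hm' : (1 : ℝ) ≤ m := by exact_mod_cast hm
  have hS0 := SS_nb hK hK.zero
  set v0 := volume.real (SS K 0) with hv0
  set v := volume.real K with hv
  have hv0p : 0 < v0 := NB.vr_pos hS0
  have hvp : 0 < v := NB.vr_pos hK
  have hδ0 : 0 < δ := by rw [hδ]; positivity
  have hδm : 5 * δ * m = 1 := by rw [hδ]; field_simp
  have hδ5 : δ ≤ 1 / 5 := by nlinarith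
  have hη0 : 0 < η := by rw [hη]; exact div_pos (by positivity) (by linarith)
  have hη6 : η ≤ 1 / 6 := by
    rw [hη, div_le_iff₀ (by linarith)]
    linarith
  have hWo : IsOpen (η • interior (SS K 0)) := isOpen_interior.smul₀ hη0.ne'
  have hnegint : ∀ x ∈ interior (SS K 0), -x ∈ interior (SS K 0) := by
    have hneg : - interior (SS K 0) ⊆ interior (SS K 0) := by
      refine interior_maximal ?_ isOpen_interior.neg
      intro x hx
      have := SS_symm K 0 _ (interior_subset hx)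
      simpa using this
    intro x hx
    exact hneg (by simpa using hx)
  obtain ⟨A, hAK, hAsep, hAcov⟩ := exists_sep_net K (η • interior (SS K 0)) hK.comp hWo
    (hS0.conv.interior.smul η) ⟨0, hS0.zero, by simp⟩ (by
      rintro _ ⟨u, hu, rfl⟩
      exact ⟨-u, hnegint u hu, by simp⟩)
  have hcount := pack hK hm hδ0 (by linarith) A hAK (by
    intro a ha b hb hab
    rw [← hη]
    exact hAsep a ha b hb hab)
  rw [← hv0] at hcount
  set Q : Set (Fin m → ℝ) := (1 - η) • K with hQ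
  have hc : (0 : ℝ) < 1 - η := by linarith
  have hQv : volume.real Q = (1 - η) ^ m * v := by
    rw [hQ, measureReal_def, Measure.addHaar_smul, Module.finrank_fin_fun,
      abs_of_pos (by positivity), ENNReal.toReal_mul, ENNReal.toReal_ofReal (by positivity)]
    rfl
  have hQp : 0 < volume.real Q := by rw [hQv]; positivity
  have hQ0 : volume Q ≠ 0 := by
    intro h
    rw [measureReal_def, h] at hQp
    simp at hQp
  have hQt : volume Q ≠ ⊤ := (hK.comp.smul (1 - η)).measure_lt_top.ne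
  have hTQ : ∀ a, TT K η a ⊆ Q := fun a t ht => ht.1
  set s : (Fin m → ℝ) → ℝ := fun a => volume.real (TT K η a) / volume.real Q with hs
  have hs1 : ∀ a, s a ≤ 1 := by
    intro a
    simp only [hs]
    rw [div_le_one hQp]
    exact measureReal_mono (hTQ a) hQt
  obtain ⟨ρ, hρ⟩ : ∃ ρ : ℝ, ρ = (1 - 2 * η) / (2 * (1 + δ)) / (1 - η) := ⟨_, rfl⟩
  have hρ0 : 0 < ρ := by
    rw [hρ]
    exact div_pos (div_pos (by linarith) (by linarith)) hc
  obtain ⟨τ, hτ⟩ : ∃ τ : (Fin m → ℝ) → ℝ,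
      τ = fun a => (volume.real (SS K ((1 - δ) • a)) / v0) ^ ((m : ℝ)⁻¹) := ⟨_, rfl⟩
  have hSa : ∀ a ∈ A, NB (SS K ((1 - δ) • a)) := fun a ha => SS_nb hK
    (smul_subset_interior hK (by linarith) (by linarith) ⟨a, hAK a ha, rfl⟩)
  have hτ0 : ∀ a ∈ A, 0 < τ a := by
    intro a ha
    rw [hτ]
    exact Real.rpow_pos_of_pos (div_pos (NB.vr_pos (hSa a ha)) hv0p) _
  have hτm : ∀ a ∈ A, τ a ^ m = volume.real (SS K ((1 - δ) • a)) / v0 := by
    intro a ha
    rw [hτ]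
    exact Real.rpow_inv_natCast_pow (div_pos (NB.vr_pos (hSa a ha)) hv0p).le hm.ne'
  have hshare : ∀ a ∈ A, ρ ^ m * (v0 / v) * (1 + τ a) ^ m ≤ s a := by
    intro a ha
    have h1 := share hK hm hδ0 (by linarith) hη0.le (by linarith) (hAK a ha) (hτ0 a ha).le
      (by rw [hτm a ha, ← hv0, div_mul_cancel₀ _ hv0p.ne'])
    simp only [hs]
    rw [le_div_iff₀ hQp, hQv]
    refine le_trans (le_of_eq ?_) h1
    rw [hρ, div_pow _ (1 - η), ← hv0]
    field_simp
  rw [← hρ] at hM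
  have hsum : ∑ a ∈ A, (1 - s a) ^ N ≤ C * (8 * Real.pi ^ 2 / δ ^ 2) ^ m := by
    have h1 : ∀ a ∈ A, (1 - s a) ^ N ≤ C * (v0 / volume.real (SS K ((1 - δ) • a))) ^ 2 := by
      intro a ha
      have h2 : (1 - s a) ^ N ≤ Real.exp (-(s a)) ^ N :=
        pow_le_pow_left₀ (by linarith [hs1 a]) (by
          have := Real.add_one_le_exp (-(s a))
          linarith) N
      have h3 : Real.exp (-(s a)) ^ N ≤ Real.exp (-(M * (1 + τ a) ^ m)) := by
        rw [← Real.exp_nat_mul]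
        apply Real.exp_le_exp.2
        have h4 := mul_le_mul_of_nonneg_left (hshare a ha) (Nat.cast_nonneg N : (0:ℝ) ≤ N)
        rw [hM]
        linarith
      have h5 := hexp (τ a) (hτ0 a ha)
      rw [hτm a ha, inv_div] at h5
      exact h2.trans (h3.trans h5)
    calc ∑ a ∈ A, (1 - s a) ^ N
        ≤ ∑ a ∈ A, C * (v0 / volume.real (SS K ((1 - δ) • a))) ^ 2 := Finset.sum_le_sum h1
      _ = C * ∑ a ∈ A, (v0 / volume.real (SS K ((1 - δ) • a))) ^ 2 := by rw [Finset.mul_sum]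
      _ ≤ _ := by gcongr
  obtain ⟨S, hS1, hS2, B', hB', hcov, hcard⟩ := pick (volume : Measure (Fin m → ℝ)) Q
    (TT K η) s (hK.comp.smul (1 - η)).measurableSet hQ0 hQt (fun a => TT_meas hK η a) hs1 N A
    (fun a _ => hTQ a) (fun a _ => by
      simp only [hs]
      rw [div_mul_cancel₀ _ hQp.ne'])
  refine ⟨S, B', hS1, fun b hb => hAK b (hB' hb), hcard.trans hsum, ?_⟩
  intro x hx
  obtain ⟨a, ha, hxa⟩ := hAcov x hx
  refine ⟨a, ?_, hxa⟩
  by_cases haB : a ∈ B'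
  · exact Or.inl haB
  · obtain ⟨t, ht, hta⟩ := hcov a ha haB
    exact Or.inr ⟨t, ht, hta.2⟩

end Pool.Agent.U958.HC
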